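import Pool.Agent.R775.HS.Loc

/-!
# Maps of finite order of a ball close to the identity

Newman's theorem for the ball, without regularity: a local action of a cyclic group of prime order
with displacement at most `1 / 4` on the ball of radius four is trivial on the ball of radius one.
The invariant map is an average, perturbed on finitely many spheres, so that its fibre misses them;
the orbits of the spheres are disjoint unions. Then no component of the fibre is invariant, and the
theorem on invariant continua of the library applies.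
-/

set_option autoImplicit false

open MeasureTheory Set Metric Filter Topology

namespace Pool.Agent.K1H61.NW

open Pool.Agent.Y485.HS Pool.Agent.Y489.SP Pool.Agent.R775.HS

section
variable {n p : ℕ} {H : Type} [Group H] [TopologicalSpace H] {T : H → E n → E n}

/-- the invariant maps -/
def Inv (T : H → E n → E n) (g : H) (F : E n → E n) : Prop :=
  ContinuousOn F (closedBall 0 4) ∧ ∀ v ∈ closedBall (0 : E n) 3, F (T g v) = F v

theorem norm_pow (hT : LocAct n H T) (h : H) {x : E n} {c : ℝ} (hx : ‖x‖ ≤ c) (hc : c ≤ 4) :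
    ‖T h x‖ ≤ c + 1 / 4 := by
  have h1 := norm_T_le hT h (x := x) (mem_BB.2 (by linarith))
  linarith

theorem inv_pow (hT : LocAct n H T) {g : H} {F : E n → E n} (hF : Inv T g F) {x : E n}
    (hx : ‖x‖ ≤ 11 / 4) (k : ℕ) : F (T (g ^ k) x) = F x := by
  induction k with
  | zero => rw [pow_zero, hT.one x (mem_BB.2 (by linarith))]
  | succ k ih =>
    have h1 := norm_pow hT (g ^ k) hx (by norm_num)
    rw [pow_succ', hT.mul g (g ^ k) x (mem_BB.2 (by linarith)) (mem_BB.2 (by linarith)),
      hF.2 _ (mem_closedBall_zero_iff.2 (by linarith)), ih]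

/-- an invariant map can be perturbed so that it misses a value on a null set which is disjoint
from its translates -/
theorem miss (hp : 0 < p) (hT : LocAct n H T) {g : H} (hg : g ^ p = 1) {F : E n → E n}
    (hF : Inv T g F) (hd : ∀ v ∈ closedBall (0 : E n) 4, dist (F v) v ≤ 1 / 4) {S : Set (E n)}
    (hS : IsCompact S) (hS2 : S ⊆ closedBall 0 2) (hS0 : volume S = 0)
    (hSd : ∀ k, 0 < k → k < p → ∀ x ∈ S, T (g ^ k) x ∉ S) (y : E n) {ε : ℝ} (hε : 0 < ε) :
    ∃ F' : E n → E n, Inv T g F' ∧ (∀ v ∈ closedBall (0 : E n) 4, dist (F' v) (F v) ≤ ε) ∧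
      ∀ x ∈ S, F' x ≠ y := by
  classical
  have hp' : (0 : ℝ) < p := by exact_mod_cast hp
  set δ : ℝ := ε / (2 * p) with hδdef
  have hδ : 0 < δ := by positivity
  obtain ⟨P, hPs, -, hPF, -⟩ := Pool.Agent.Y739.SP.t_APX n F hF.1 hd δ hδ
  have hnull : volume (P '' S) = 0 :=
    addHaar_image_eq_zero_of_differentiableOn_of_addHaar_eq_zero volume
      (hPs.differentiable one_ne_zero).differentiableOn hS0
  obtain ⟨y', hy'b, hy'⟩ : ∃ y' ∈ ball y δ, y' ∉ P '' S := by
    by_contra hcon
    push Not at hcon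
    have h1 : volume (ball y δ) ≤ volume (P '' S) := measure_mono hcon
    rw [hnull] at h1
    exact absurd h1 (not_le.2 (measure_ball_pos volume y hδ))
  have hTc : ∀ k : ℕ, ContinuousOn (T (g ^ k)) (closedBall (0 : E n) 4) := fun k =>
    hT.cont_right (g ^ k)
  have hS4 : S ⊆ closedBall (0 : E n) 4 :=
    hS2.trans (closedBall_subset_closedBall (by norm_num))
  set R : Set (E n) := (⋃ k ∈ Finset.Ioo 0 p, T (g ^ k) '' S) ∪ {x | 5 / 2 ≤ ‖x‖} with hR
  have hRc : IsClosed R := by
    refine IsClosed.union ?_ (isClosed_le continuous_const continuous_norm)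
    refine Set.Finite.isClosed_biUnion (Finset.finite_toSet _) fun k _ => ?_
    exact (hS.image_of_continuousOn ((hTc k).mono hS4)).isClosed
  have hRS : Disjoint R S := by
    rw [Set.disjoint_left]
    rintro x (hx | hx) hxS
    · obtain ⟨k, hk, z, hz, rfl⟩ := mem_iUnion₂.1 hx
      rw [Finset.mem_Ioo] at hk
      exact hSd k hk.1 hk.2 z hz hxS
    · have h1 := mem_closedBall_zero_iff.1 (hS2 hxS)
      have h2 : 5 / 2 ≤ ‖x‖ := hx
      linarith
  obtain ⟨f, hf0, hf1, hf01⟩ := exists_continuous_zero_one_of_isClosed hRc hS.isClosed hRS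
  have hfR : ∀ x ∈ R, f x = 0 := fun x hx => hf0 hx
  have hfS : ∀ x ∈ S, f x = 1 := fun x hx => hf1 hx
  let a : E n → ℕ → E n := fun x k =>
    f (T (g ^ k) x) • (P (T (g ^ k) x) + (y - y') - F x)
  refine ⟨fun x => F x + ∑ k ∈ Finset.range p, a x k, ⟨?_, ?_⟩, ?_, ?_⟩
  · refine hF.1.add (continuousOn_finsetSum _ fun k _ => ?_)
    refine ContinuousOn.smul (f.continuous.comp_continuousOn (hTc k)) ?_
    exact ((hPs.continuous.comp_continuousOn (hTc k)).add continuousOn_const).sub hF.1
  · intro x hx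
    have hxn : ‖x‖ ≤ 3 := mem_closedBall_zero_iff.1 hx
    have hx1 := norm_pow hT g hxn (by norm_num)
    have h1 : ∀ k, a (T g x) k = a x (k + 1) := by
      intro k
      have h2 : T (g ^ k) (T g x) = T (g ^ (k + 1)) x := by
        rw [pow_succ, hT.mul (g ^ k) g x (mem_BB.2 (by linarith)) (mem_BB.2 (by linarith))]
      simp only [a]
      rw [h2, hF.2 x hx]
    have h3 : a x p = a x 0 := by
      simp only [a]
      rw [hg, pow_zero]
    have h4 : ∑ k ∈ Finset.range p, a x (k + 1) = ∑ k ∈ Finset.range p, a x k := by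
      have e1 := Finset.sum_range_succ (fun k => a x k) p
      have e2 := Finset.sum_range_succ' (fun k => a x k) p
      rw [e1, h3] at e2
      exact (add_right_cancel e2).symm
    show F (T g x) + ∑ k ∈ Finset.range p, a (T g x) k = F x + ∑ k ∈ Finset.range p, a x k
    rw [hF.2 x hx, Finset.sum_congr rfl fun k _ => h1 k, h4]
  · intro x hx
    have hxn : ‖x‖ ≤ 4 := mem_closedBall_zero_iff.1 hx
    have hterm : ∀ k ∈ Finset.range p, ‖a x k‖ ≤ 2 * δ := by
      intro k _
      by_cases hk : f (T (g ^ k) x) = 0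
      · simp only [a, hk, zero_smul, norm_zero]
        positivity
      · have h1 : T (g ^ k) x ∉ R := fun h => hk (hfR _ h)
        have h2 : ‖T (g ^ k) x‖ < 5 / 2 := by
          by_contra h
          exact h1 (Or.inr (not_lt.1 h))
        have h3 : ‖x‖ ≤ 11 / 4 := by
          have h4 := hT.disp (g ^ k) x hx
          rw [dist_comm, dist_eq_norm] at h4
          calc ‖x‖ = ‖(x - T (g ^ k) x) + T (g ^ k) x‖ := by congr 1; abel
            _ ≤ ‖x - T (g ^ k) x‖ + ‖T (g ^ k) x‖ := norm_add_le _ _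
            _ ≤ 11 / 4 := by linarith
        have h5 : P (T (g ^ k) x) + (y - y') - F x =
            (P (T (g ^ k) x) - F (T (g ^ k) x)) + (y - y') := by
          rw [inv_pow hT hF h3 k]
          abel
        have h6 : ‖P (T (g ^ k) x) - F (T (g ^ k) x)‖ ≤ δ := by
          rw [← dist_eq_norm]
          exact hPF _ (mem_closedBall_zero_iff.2 (by linarith))
        have h7 : ‖y - y'‖ ≤ δ := by
          rw [← dist_eq_norm, dist_comm]
          exact (mem_ball.1 hy'b).le
        simp only [a]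
        rw [norm_smul, h5]
        have h8 : ‖f (T (g ^ k) x)‖ ≤ 1 := by
          rw [Real.norm_of_nonneg (hf01 _).1]
          exact (hf01 _).2
        calc ‖f (T (g ^ k) x)‖ * ‖(P (T (g ^ k) x) - F (T (g ^ k) x)) + (y - y')‖
            ≤ 1 * (δ + δ) := by
              refine mul_le_mul h8 ((norm_add_le _ _).trans (add_le_add h6 h7)) (norm_nonneg _)
                zero_le_one
          _ = 2 * δ := by ring
    show dist (F x + ∑ k ∈ Finset.range p, a x k) (F x) ≤ ε
    rw [dist_eq_norm, add_sub_cancel_left]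
    calc ‖∑ k ∈ Finset.range p, a x k‖ ≤ ∑ k ∈ Finset.range p, ‖a x k‖ := norm_sum_le _ _
      _ ≤ ∑ k ∈ Finset.range p, 2 * δ := Finset.sum_le_sum hterm
      _ = ε := by
        rw [Finset.sum_const, Finset.card_range, nsmul_eq_mul, hδdef]
        field_simp
  · intro x hx
    have h1 : ∑ k ∈ Finset.range p, a x k = P x + (y - y') - F x := by
      rw [Finset.sum_eq_single_of_mem 0 (Finset.mem_range.2 hp)]
      · simp only [a]
        rw [pow_zero, hT.one x (hS4 hx), hfS x hx, one_smul]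
      · intro k hk hk0
        have h2 : T (g ^ k) x ∈ R := by
          left
          refine mem_biUnion (x := k) ?_ ⟨x, hx, rfl⟩
          simp only [Finset.coe_Ioo, mem_Ioo]
          exact ⟨Nat.pos_of_ne_zero hk0, Finset.mem_range.1 hk⟩
        simp only [a]
        rw [hfR _ h2, zero_smul]
    show F x + ∑ k ∈ Finset.range p, a x k ≠ y
    rw [h1]
    intro h
    apply hy'
    refine ⟨x, hx, ?_⟩
    have h3 : P x - y' = 0 := by
      have h4 : P x - y' = (F x + (P x + (y - y') - F x)) - y := by abel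
      rw [h4, h, sub_self]
    exact sub_eq_zero.1 h3

/-- perturbation on finitely many null sets -/
theorem miss_fin (hp : 0 < p) (hT : LocAct n H T) {g : H} (hg : g ^ p = 1) {F : E n → E n}
    (hF : Inv T g F) {c : ℝ} (hc : 0 < c)
    (hd : ∀ v ∈ closedBall (0 : E n) 4, dist (F v) v ≤ 1 / 4 - c) (y : E n) {α : Type}
    (A : Finset α) (S : α → Set (E n)) (hS : ∀ i ∈ A, IsCompact (S i))
    (hS2 : ∀ i ∈ A, S i ⊆ closedBall 0 2) (hS0 : ∀ i ∈ A, volume (S i) = 0)
    (hSd : ∀ i ∈ A, ∀ k, 0 < k → k < p → ∀ x ∈ S i, T (g ^ k) x ∉ S i) :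
    ∀ ε : ℝ, 0 < ε → ∃ F' : E n → E n, Inv T g F' ∧
      (∀ v ∈ closedBall (0 : E n) 4, dist (F' v) (F v) ≤ min ε c) ∧
      ∀ i ∈ A, ∀ x ∈ S i, F' x ≠ y := by
  classical
  induction A using Finset.induction_on with
  | empty => exact fun ε hε => ⟨F, hF, fun v _ => by rw [dist_self]; positivity, by simp⟩
  | insert b A hb ih =>
    intro ε hε
    obtain ⟨F1, hF1, hF1d, hF1m⟩ := ih (fun i hi => hS i (Finset.mem_insert_of_mem hi))
      (fun i hi => hS2 i (Finset.mem_insert_of_mem hi))
      (fun i hi => hS0 i (Finset.mem_insert_of_mem hi))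
      (fun i hi => hSd i (Finset.mem_insert_of_mem hi)) (min ε c / 2) (by positivity)
    have hF1d' : ∀ v ∈ closedBall (0 : E n) 4, dist (F1 v) (F v) ≤ min ε c / 2 := fun v hv =>
      (hF1d v hv).trans (min_le_left _ _)
    have hmc : min ε c ≤ c := min_le_right _ _
    have hm0 : 0 < min ε c := lt_min hε hc
    -- the distance
    obtain ⟨m, hm, hmA⟩ : ∃ m : ℝ, 0 < m ∧ ∀ i ∈ A, ∀ x ∈ S i, m ≤ dist (F1 x) y := by
      have hcomp : IsCompact (⋃ i ∈ A, S i) :=
        A.isCompact_biUnion fun i hi => hS i (Finset.mem_insert_of_mem hi)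
      have hsub : (⋃ i ∈ A, S i) ⊆ closedBall (0 : E n) 4 :=
        iUnion₂_subset fun i hi => (hS2 i (Finset.mem_insert_of_mem hi)).trans
          (closedBall_subset_closedBall (by norm_num))
      rcases (⋃ i ∈ A, S i).eq_empty_or_nonempty with he | hne
      · refine ⟨1, one_pos, fun i hi x hx => ?_⟩
        have : x ∈ (⋃ i ∈ A, S i) := mem_biUnion (x := i) hi hx
        rw [he] at this
        exact this.elim
      · have hcont : ContinuousOn (fun x => dist (F1 x) y) (⋃ i ∈ A, S i) :=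
          (continuous_id.dist continuous_const).comp_continuousOn (hF1.1.mono hsub)
        obtain ⟨x0, hx0, hmin⟩ := hcomp.exists_isMinOn hne hcont
        refine ⟨dist (F1 x0) y, ?_, fun i hi x hx => hmin (mem_biUnion (x := i) hi hx)⟩
        rw [dist_pos]
        obtain ⟨i, hi, hx0i⟩ := mem_iUnion₂.1 hx0
        exact hF1m i hi x0 hx0i
    have hbA : b ∈ insert b A := Finset.mem_insert_self _ _
    obtain ⟨F2, hF2, hF2d, hF2m⟩ := miss hp hT hg hF1 (fun v hv => by
        have h1 := hF1d' v hv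
        have h2 := hd v hv
        have h3 := dist_triangle (F1 v) (F v) v
        linarith) (hS b hbA) (hS2 b hbA) (hS0 b hbA) (hSd b hbA) y
        (ε := min (min ε c / 2) (m / 2)) (by positivity)
    refine ⟨F2, hF2, fun v hv => ?_, fun i hi x hx => ?_⟩
    · have h1 := (hF2d v hv).trans (min_le_left _ _)
      have h2 := hF1d' v hv
      have h3 := dist_triangle (F2 v) (F1 v) (F v)
      linarith
    · rcases Finset.mem_insert.1 hi with rfl | hi'
      · exact hF2m x hx
      · intro h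
        have hx4 : x ∈ closedBall (0 : E n) 4 :=
          closedBall_subset_closedBall (by norm_num) (hS2 i hi hx)
        have h1 := (hF2d x hx4).trans (min_le_right _ _)
        have h2 := hmA i hi' x hx
        rw [h, dist_comm] at h1
        linarith

theorem ne_of_ne (hp : p.Prime) (hT : LocAct n H T) {g : H} (hg : g ^ p = 1) {x : E n}
    (hx : x ∈ closedBall (0 : E n) 4) (hne : T g x ≠ x) {k : ℕ} (hk0 : 0 < k) (hkp : k < p) :
    T (g ^ k) x ≠ x := by
  intro h
  have hall : ∀ j : ℕ, T ((g ^ k) ^ j) x = x := by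
    intro j
    induction j with
    | zero => rw [pow_zero, hT.one x hx]
    | succ j ih =>
      rw [pow_succ', hT.mul (g ^ k) _ x hx (by rw [ih]; exact hx), ih, h]
  have hcop : Nat.Coprime k p := by
    rw [Nat.coprime_comm]
    exact (Nat.Prime.coprime_iff_not_dvd hp).2 fun hd => absurd (Nat.le_of_dvd hk0 hd) (not_le.2 hkp)
  obtain ⟨m, -, hm⟩ := Nat.exists_mul_mod_eq_one_of_coprime hcop hp.one_lt
  have h1 : (g ^ k) ^ m = g := by
    rw [← pow_mul, pow_eq_pow_mod (k * m) hg, hm, pow_one]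
  have h2 := hall m
  rw [h1] at h2
  exact hne h2

/-- Newman's theorem for the ball -/
theorem fixed_ball (hn : 1 ≤ n) (hp : p.Prime) (hT : LocAct n H T) {g : H} (hg : g ^ p = 1) :
    ∀ y ∈ ball (0 : E n) 1, T g y = y := by
  classical
  intro y hy
  by_contra hne
  have hp' : (0 : ℝ) < p := by exact_mod_cast hp.pos
  have hTc : ∀ k : ℕ, ContinuousOn (T (g ^ k)) (closedBall (0 : E n) 4) := fun k =>
    hT.cont_right (g ^ k)
  have hy1 : ‖y‖ < 1 := mem_ball_zero_iff.1 hy
  -- the average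
  obtain ⟨F0, hF0⟩ : ∃ F0 : E n → E n, F0 = fun x => (p : ℝ)⁻¹ • ∑ k ∈ Finset.range p, T (g ^ k) x :=
    ⟨_, rfl⟩
  have hinv0 : Inv T g F0 := by
    refine ⟨?_, ?_⟩
    · rw [hF0]
      exact ContinuousOn.const_smul (continuousOn_finsetSum _ fun k _ => hTc k) ((p : ℝ)⁻¹)
    · intro x hx
      have hxn : ‖x‖ ≤ 3 := mem_closedBall_zero_iff.1 hx
      have hx1 := norm_pow hT g hxn (by norm_num)
      have h1 : ∀ k, T (g ^ k) (T g x) = T (g ^ (k + 1)) x := by
        intro k
        rw [pow_succ, hT.mul (g ^ k) g x (mem_BB.2 (by linarith)) (mem_BB.2 (by linarith))]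
      have e1 := Finset.sum_range_succ (fun k => T (g ^ k) x) p
      have e2 := Finset.sum_range_succ' (fun k => T (g ^ k) x) p
      simp only [hg, pow_zero] at e1 e2
      rw [e1] at e2
      rw [hF0]
      simp only
      rw [Finset.sum_congr rfl fun k _ => h1 k]
      congr 1
      exact (add_right_cancel e2).symm
  have hfix : ∀ x ∈ closedBall (0 : E n) 4, T g x = x → F0 x = x := by
    intro x hx hgx
    have hall : ∀ j : ℕ, T (g ^ j) x = x := by
      intro j
      induction j with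
      | zero => rw [pow_zero, hT.one x hx]
      | succ j ih => rw [pow_succ', hT.mul g _ x hx (by rw [ih]; exact hx), ih, hgx]
    rw [hF0]
    simp only
    rw [Finset.sum_congr rfl fun k _ => hall k, Finset.sum_const, Finset.card_range,
      ← Nat.cast_smul_eq_nsmul ℝ, smul_smul, inv_mul_cancel₀ hp'.ne', one_smul]
  have hd0 : ∀ v ∈ closedBall (0 : E n) 4, dist (F0 v) v ≤ 1 / 4 - 1 / (4 * p) := by
    intro v hv
    have h1 : F0 v - v = (p : ℝ)⁻¹ • ∑ k ∈ Finset.range p, (T (g ^ k) v - v) := by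
      rw [hF0, Finset.sum_sub_distrib, Finset.sum_const, Finset.card_range,
        ← Nat.cast_smul_eq_nsmul ℝ, smul_sub, smul_smul, inv_mul_cancel₀ hp'.ne', one_smul]
    obtain ⟨q, hq⟩ : ∃ q, p = q + 1 := ⟨p - 1, by have := hp.pos; omega⟩
    have h2 : ‖∑ k ∈ Finset.range p, (T (g ^ k) v - v)‖ ≤ (p - 1) * (1 / 4) := by
      have h3 : ∑ k ∈ Finset.range p, (T (g ^ k) v - v) =
          ∑ k ∈ Finset.range q, (T (g ^ (k + 1)) v - v) := by
        rw [hq, Finset.sum_range_succ', pow_zero, hT.one v hv, sub_self, add_zero]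
      rw [h3]
      calc ‖∑ k ∈ Finset.range q, (T (g ^ (k + 1)) v - v)‖
          ≤ ∑ k ∈ Finset.range q, ‖T (g ^ (k + 1)) v - v‖ := norm_sum_le _ _
        _ ≤ ∑ k ∈ Finset.range q, (1 / 4 : ℝ) := by
            refine Finset.sum_le_sum fun k _ => ?_
            rw [← dist_eq_norm]
            exact hT.disp _ v hv
        _ = (p - 1) * (1 / 4) := by
            rw [Finset.sum_const, Finset.card_range, nsmul_eq_mul, hq]
            push_cast
            ring
    rw [dist_eq_norm, h1, norm_smul, Real.norm_of_nonneg (by positivity)]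
    calc (p : ℝ)⁻¹ * ‖∑ k ∈ Finset.range p, (T (g ^ k) v - v)‖
        ≤ (p : ℝ)⁻¹ * ((p - 1) * (1 / 4)) := by gcongr
      _ = 1 / 4 - 1 / (4 * p) := by field_simp
  -- the fibre
  obtain ⟨Φ, hΦ⟩ : ∃ Φ : Set (E n), Φ = closedBall (0 : E n) 3 ∩ F0 ⁻¹' {y} := ⟨_, rfl⟩
  have h34 : closedBall (0 : E n) 3 ⊆ closedBall 0 4 := closedBall_subset_closedBall (by norm_num)
  have hΦmem : ∀ x ∈ Φ, x ∈ closedBall (0 : E n) 3 ∧ F0 x = y := fun x hx => by
    rw [hΦ] at hx
    exact hx
  have hΦc : IsCompact Φ := by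
    rw [hΦ]
    exact (isCompact_closedBall (0 : E n) 3).of_isClosed_subset
      ((hinv0.1.mono h34).preimage_isClosed_of_isClosed isClosed_closedBall
        (isClosed_singleton (x := y))) inter_subset_left
  have hΦn : ∀ x ∈ Φ, ‖x‖ < 5 / 4 := by
    intro x hx
    obtain ⟨h1, h2⟩ := hΦmem x hx
    have h3 := hd0 x (h34 h1)
    have h4 : 0 ≤ 1 / (4 * (p : ℝ)) := by positivity
    rw [h2, dist_eq_norm] at h3
    calc ‖x‖ = ‖y - (y - x)‖ := by congr 1; abel
      _ ≤ ‖y‖ + ‖y - x‖ := norm_sub_le _ _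
      _ < _ := by linarith
  have hΦne : ∀ x ∈ Φ, ∀ k, 0 < k → k < p → T (g ^ k) x ≠ x := by
    intro x hx k hk0 hkp
    obtain ⟨h1, h2⟩ := hΦmem x hx
    refine ne_of_ne hp hT hg (h34 h1) (fun h => ?_) hk0 hkp
    have h3 := hfix x (h34 h1) h
    rw [h2] at h3
    rw [← h3] at h
    exact hne h
  -- small balls
  have hr : ∀ x ∈ Φ, ∃ r : ℝ, 0 < r ∧ r ≤ 1 / 2 ∧ ∀ k, 0 < k → k < p → ∀ z ∈ closedBall x r,
      T (g ^ k) z ∉ closedBall x r := by
    intro x hx
    have hx2 := hΦn x hx
    have hone : ∀ k ∈ Finset.Ioo 0 p, ∃ r : ℝ, 0 < r ∧ ∀ z ∈ closedBall x r,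
        r < dist (T (g ^ k) z) x := by
      intro k hk
      rw [Finset.mem_Ioo] at hk
      have hpos : 0 < dist (T (g ^ k) x) x := dist_pos.2 (hΦne x hx k hk.1 hk.2)
      have hnhd : closedBall (0 : E n) 4 ∈ 𝓝 x := by
        refine mem_of_superset (isOpen_ball.mem_nhds (mem_ball_zero_iff.2 (?_ : ‖x‖ < 4)))
          ball_subset_closedBall
        linarith
      have hc : ContinuousAt (fun z => dist (T (g ^ k) z) x) x :=
        ((hTc k).continuousAt hnhd).dist continuousAt_const
      obtain ⟨η, hη, hηz⟩ := Metric.eventually_nhds_iff.1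
        (hc.eventually (lt_mem_nhds (show dist (T (g ^ k) x) x / 2 < dist (T (g ^ k) x) x by
          linarith)))
      refine ⟨min (η / 2) (dist (T (g ^ k) x) x / 2), by positivity, fun z hz => ?_⟩
      have h1 : dist z x < η := by
        have := (mem_closedBall.1 hz).trans (min_le_left _ _)
        linarith
      exact lt_of_le_of_lt (min_le_right _ _) (hηz h1)
    choose! r hr0 hr1 using hone
    obtain ⟨ρ, hρ0, hρ1⟩ : ∃ ρ : ℝ, 0 < ρ ∧ ∀ k ∈ Finset.Ioo 0 p, ρ ≤ r k := by
      rcases (Finset.Ioo 0 p).eq_empty_or_nonempty with he | hne'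
      · exact ⟨1, one_pos, fun k hk => by rw [he] at hk; simp at hk⟩
      · obtain ⟨k0, hk0, hmin⟩ := Finset.exists_min_image (Finset.Ioo 0 p) r hne'
        exact ⟨r k0, hr0 k0 hk0, hmin⟩
    refine ⟨min ρ (1 / 2), lt_min hρ0 (by norm_num), min_le_right _ _, fun k hk0 hkp z hz hz' => ?_⟩
    have hk : k ∈ Finset.Ioo 0 p := Finset.mem_Ioo.2 ⟨hk0, hkp⟩
    have h1 : min ρ (1 / 2) ≤ r k := (min_le_left _ _).trans (hρ1 k hk)
    have h2 := hr1 k hk z (closedBall_subset_closedBall h1 hz)
    have h3 := (mem_closedBall.1 hz').trans h1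
    linarith
  choose! r hr0 hr1 hr2 using hr
  obtain ⟨A, hAΦ, hAcov⟩ := hΦc.elim_nhds_subcover (fun x => ball x (r x))
    (fun x hx => ball_mem_nhds x (hr0 x hx))
  -- the distance to the value off the balls
  obtain ⟨η, hη, hηx⟩ : ∃ η : ℝ, 0 < η ∧ ∀ x ∈ closedBall (0 : E n) 3,
      (∀ a ∈ A, x ∉ ball a (r a)) → η ≤ dist (F0 x) y := by
    have hK : IsCompact (closedBall (0 : E n) 3 \ ⋃ a ∈ A, ball a (r a)) :=
      (isCompact_closedBall (0 : E n) 3).diff (isOpen_biUnion fun a _ => isOpen_ball)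
    rcases (closedBall (0 : E n) 3 \ ⋃ a ∈ A, ball a (r a)).eq_empty_or_nonempty with he | hne'
    · refine ⟨1, one_pos, fun x hx hxa => ?_⟩
      have h1 : x ∈ closedBall (0 : E n) 3 \ ⋃ a ∈ A, ball a (r a) := ⟨hx, fun h => by
        obtain ⟨a, ha, hxa'⟩ := mem_iUnion₂.1 h
        exact hxa a ha hxa'⟩
      rw [he] at h1
      exact h1.elim
    · have hcont : ContinuousOn (fun x => dist (F0 x) y)
          (closedBall (0 : E n) 3 \ ⋃ a ∈ A, ball a (r a)) :=
        (continuous_id.dist continuous_const).comp_continuousOn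
          (hinv0.1.mono fun x hx => h34 hx.1)
      obtain ⟨x0, hx0, hmin⟩ := hK.exists_isMinOn hne' hcont
      refine ⟨dist (F0 x0) y, ?_, fun x hx hxa => hmin ⟨hx, fun h => by
        obtain ⟨a, ha, hxa'⟩ := mem_iUnion₂.1 h
        exact hxa a ha hxa'⟩⟩
      rw [dist_pos]
      intro h
      apply hx0.2
      apply hAcov
      rw [hΦ]
      exact ⟨hx0.1, h⟩
  -- the perturbation
  have hc0 : 0 < 1 / (4 * (p : ℝ)) := by positivity
  obtain ⟨F, hF, hFd, hFm⟩ := miss_fin hp.pos hT hg hinv0 hc0 hd0 y A (fun a => sphere a (r a))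
    (fun a _ => isCompact_sphere _ _) (fun a ha x hx => by
      have h1 := hΦn a (hAΦ a ha)
      have h2 := hr1 a (hAΦ a ha)
      have h3 := mem_sphere.1 hx
      rw [mem_closedBall_zero_iff]
      rw [dist_eq_norm] at h3
      calc ‖x‖ = ‖(x - a) + a‖ := by congr 1; abel
        _ ≤ ‖x - a‖ + ‖a‖ := norm_add_le _ _
        _ ≤ 2 := by linarith)
    (fun a ha => Measure.addHaar_sphere_of_ne_zero _ _ (hr0 a (hAΦ a ha)).ne')
    (fun a ha k hk0 hkp x hx hx' => hr2 a (hAΦ a ha) k hk0 hkp x (sphere_subset_closedBall hx)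
      (sphere_subset_closedBall hx')) (η / 2) (by positivity)
  have hFdisp : ∀ v ∈ closedBall (0 : E n) 4, dist (F v) v ≤ 1 / 4 := by
    intro v hv
    have h1 := (hFd v hv).trans (min_le_right _ _)
    have h2 := hd0 v hv
    have h3 := dist_triangle (F v) (F0 v) v
    linarith
  have hgt : Tendsto (fun j : ℕ => g ^ p ^ j) atTop (𝓝 1) := by
    refine tendsto_const_nhds.congr' ?_
    filter_upwards [eventually_ge_atTop 1] with j hj
    obtain ⟨i, rfl⟩ : ∃ i, j = i + 1 := ⟨j - 1, by omega⟩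
    rw [pow_succ', pow_mul, hg, one_pow]
  obtain ⟨C, -, hCn, hC5, hCF, hCg⟩ := exists_cont hp hn hT g hgt F hF.1 hFdisp hF.2 hy
  obtain ⟨x0, hx0⟩ := hCn.nonempty
  have hC3 : ∀ x ∈ C, x ∈ closedBall (0 : E n) 3 := fun x hx =>
    closedBall_subset_closedBall (by norm_num) (hC5 hx)
  obtain ⟨a, ha, hx0a⟩ : ∃ a ∈ A, x0 ∈ ball a (r a) := by
    by_contra hcon
    push Not at hcon
    have h1 := hηx x0 (hC3 x0 hx0) hcon
    have h2 := (hFd x0 (h34 (hC3 x0 hx0))).trans (min_le_left _ _)
    rw [hCF x0 hx0, dist_comm] at h2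
    linarith
  have hsub : C ⊆ ball a (r a) := by
    refine hCn.isPreconnected.subset_left_of_subset_union isOpen_ball
      (isClosed_closedBall (x := a) (ε := r a)).isOpen_compl ?_ ?_ ⟨x0, hx0, hx0a⟩
    · rw [Set.disjoint_left]
      exact fun x hx hx' => hx' (ball_subset_closedBall hx)
    · intro x hx
      rcases lt_trichotomy (dist x a) (r a) with h | h | h
      · exact Or.inl h
      · exact absurd (hCF x hx) (hFm a ha x h)
      · exact Or.inr fun h' => absurd (mem_closedBall.1 h') (not_le.2 h)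
  have h1 : T g x0 ∈ C := by
    rw [← hCg]
    exact ⟨x0, hx0, rfl⟩
  have h2 := hr2 a (hAΦ a ha) 1 one_pos hp.one_lt x0 (ball_subset_closedBall hx0a)
  rw [pow_one] at h2
  exact h2 (ball_subset_closedBall (hsub h1))

end

end Pool.Agent.K1H61.NW
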