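import Pool.Agent.R775.HS.Glob

/-!
# Elements of profinite groups whose `p`-power powers tend to `1`
-/

set_option autoImplicit false

open Set Filter Topology

namespace Pool.Agent.K1H61.NW

section
variable {P : Type} [Group P] [TopologicalSpace P] [IsTopologicalGroup P]

theorem pow_mem_closure {k s : P} (m : ℕ)
    (hs : s ∈ (Subgroup.zpowers k).topologicalClosure) :
    s ^ m ∈ (Subgroup.zpowers (k ^ m)).topologicalClosure := by
  have hc : Continuous (fun x : P => x ^ m) := continuous_pow m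
  have h1 : (fun x : P => x ^ m) s ∈
      closure ((fun x : P => x ^ m) '' (Subgroup.zpowers k : Set P)) :=
    image_closure_subset_closure_image hc ⟨s, hs, rfl⟩
  refine closure_mono ?_ h1
  rintro _ ⟨x, hx, rfl⟩
  obtain ⟨z, rfl⟩ := Subgroup.mem_zpowers_iff.1 hx
  refine Subgroup.mem_zpowers_iff.2 ⟨z, ?_⟩
  show (k ^ m) ^ z = (k ^ z) ^ m
  rw [← zpow_natCast, ← zpow_natCast, ← zpow_mul, ← zpow_mul, mul_comm]

theorem comm_of_closure [T2Space P] {k s : P}
    (hs : s ∈ (Subgroup.zpowers k).topologicalClosure) : Commute s k := by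
  have h1 : (Subgroup.zpowers k).topologicalClosure ≤ Subgroup.centralizer {k} := by
    refine Subgroup.topologicalClosure_minimal _ ?_ ?_
    · rw [Subgroup.zpowers_le, Subgroup.mem_centralizer_singleton_iff]
    · have h2 : ((Subgroup.centralizer {k} : Subgroup P) : Set P) = {x | x * k = k * x} := by
        ext x
        rw [SetLike.mem_coe, Subgroup.mem_centralizer_singleton_iff]
        rfl
      rw [h2]
      exact isClosed_eq (by fun_prop) (by fun_prop)
  exact Subgroup.mem_centralizer_singleton_iff.1 (h1 hs)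

/-- the closure of the powers of a power has finite index -/
theorem open_closure_pow {k : P} (hk : (Subgroup.zpowers k).topologicalClosure = ⊤) {m : ℕ}
    (hm : 0 < m) : IsOpen ((Subgroup.zpowers (k ^ m)).topologicalClosure : Set P) := by
  set K : Subgroup P := (Subgroup.zpowers (k ^ m)).topologicalClosure with hK
  have hKc : IsClosed (K : Set P) := Subgroup.isClosed_topologicalClosure _
  have hcov : ∀ x : P, ∃ i : Fin m, (k ^ (i : ℕ))⁻¹ * x ∈ K := by
    have h1 : IsClosed (⋃ i : Fin m, {x : P | (k ^ (i : ℕ))⁻¹ * x ∈ K}) := by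
      refine isClosed_iUnion_of_finite fun i => ?_
      exact hKc.preimage (continuous_const.mul continuous_id)
    have h2 : ((Subgroup.zpowers k : Subgroup P) : Set P) ⊆
        ⋃ i : Fin m, {x : P | (k ^ (i : ℕ))⁻¹ * x ∈ K} := by
      intro x hx
      obtain ⟨z, rfl⟩ := Subgroup.mem_zpowers_iff.1 hx
      have hm' : (m : ℤ) ≠ 0 := by exact_mod_cast hm.ne'
      have hr0 : 0 ≤ z % m := Int.emod_nonneg z hm'
      have hr1 : z % m < m := Int.emod_lt_of_pos z (by exact_mod_cast hm)
      refine mem_iUnion.2 ⟨⟨(z % m).toNat, by omega⟩, ?_⟩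
      show (k ^ (z % m).toNat)⁻¹ * k ^ z ∈ K
      have h3 : (k ^ (z % m).toNat)⁻¹ * k ^ z = (k ^ m) ^ (z / m) := by
        rw [← zpow_natCast, ← zpow_neg, ← zpow_add, ← zpow_natCast, ← zpow_mul]
        congr 1
        rw [Int.toNat_of_nonneg hr0]
        have := Int.emod_add_mul_ediv z m
        linarith
      rw [h3]
      exact Subgroup.le_topologicalClosure _ (Subgroup.zpow_mem_zpowers _ _)
    have h3 := closure_minimal h2 h1
    intro x
    have hx : x ∈ closure ((Subgroup.zpowers k : Subgroup P) : Set P) := by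
      rw [← Subgroup.topologicalClosure_coe, hk]
      exact Subgroup.mem_top x
    obtain ⟨i, hi⟩ := mem_iUnion.1 (h3 hx)
    exact ⟨i, hi⟩
  have hfin : Finite (P ⧸ K) := by
    refine Finite.of_surjective (fun i : Fin m => ((k ^ (i : ℕ) : P) : P ⧸ K)) ?_
    intro x
    obtain ⟨x, rfl⟩ := QuotientGroup.mk_surjective x
    obtain ⟨i, hi⟩ := hcov x
    exact ⟨i, QuotientGroup.eq.2 hi⟩
  have : K.FiniteIndex := Subgroup.finiteIndex_of_finite_quotient
  exact Subgroup.isOpen_of_isClosed_of_finiteIndex K hKc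

/-- the closed subgroups of a procyclic pro-`p` group are open or trivial -/
theorem pow_mem_of_ne [CompactSpace P] [T2Space P] [TotallyDisconnectedSpace P] {p : ℕ} (hp : p.Prime) {k : P}
    (hk : Tendsto (fun j : ℕ => k ^ p ^ j) atTop (𝓝 1)) {s : P}
    (hs : s ∈ (Subgroup.zpowers k).topologicalClosure) (hs1 : s ≠ 1) :
    ∃ j : ℕ, 0 < j ∧ k ^ j ∈ (Subgroup.zpowers s).topologicalClosure := by
  classical
  have hex : ∃ j : ℕ, s ∉ (Subgroup.zpowers (k ^ p ^ j)).topologicalClosure := by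
    have h1 : IsOpen ({s}ᶜ : Set P) := isClosed_singleton.isOpen_compl
    obtain ⟨U, hU⟩ := ProfiniteGrp.exist_openNormalSubgroup_sub_open_nhds_of_one h1
      (by simpa using hs1.symm)
    have h2 : (U.toSubgroup : Set P) ∈ 𝓝 (1 : P) := U.isOpen'.mem_nhds U.toSubgroup.one_mem
    obtain ⟨j, hj⟩ := (hk.eventually h2).exists
    refine ⟨j, fun h => ?_⟩
    have h3 : (Subgroup.zpowers (k ^ p ^ j)).topologicalClosure ≤ U.toSubgroup :=
      Subgroup.topologicalClosure_minimal _ ((Subgroup.zpowers_le).2 hj)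
        (Subgroup.isClosed_of_isOpen _ U.isOpen')
    exact hU (h3 h) rfl
  have hfind := Nat.find_spec hex
  have hmin : ∀ j, j < Nat.find hex → s ∈ (Subgroup.zpowers (k ^ p ^ j)).topologicalClosure :=
    fun j hj => not_not.1 (Nat.find_min hex hj)
  obtain ⟨j, hj⟩ : ∃ j, Nat.find hex = j + 1 := by
    rcases Nat.eq_zero_or_pos (Nat.find hex) with h | h
    · rw [h, pow_zero, pow_one] at hfind
      exact absurd hs hfind
    · exact ⟨Nat.find hex - 1, by omega⟩
  rw [hj] at hfind
  have hsj := hmin j (by omega)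
  obtain ⟨t, ht⟩ : ∃ t : P, t = k ^ p ^ j := ⟨_, rfl⟩
  rw [← ht] at hsj
  have htp : k ^ p ^ (j + 1) = t ^ p := by rw [ht, ← pow_mul, pow_succ]
  rw [htp] at hfind
  have htt : Tendsto (fun i : ℕ => t ^ p ^ i) atTop (𝓝 1) := by
    have h1 := (tendsto_add_atTop_iff_nat j).2 hk
    refine h1.congr fun i => ?_
    rw [ht, ← pow_mul, ← pow_add, add_comm]
  refine ⟨p ^ j, pow_pos hp.pos j, ?_⟩
  rw [← ht]
  show t ∈ closure ((Subgroup.zpowers s : Subgroup P) : Set P)
  rw [mem_closure_iff]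
  intro V hVo htV
  have hO : IsOpen ({x : P | t * x ∈ V} ∩
      {x : P | s * x ∈ ((Subgroup.zpowers (t ^ p)).topologicalClosure : Set P)ᶜ}) := by
    refine IsOpen.inter (hVo.preimage (continuous_const.mul continuous_id)) ?_
    exact (Subgroup.isClosed_topologicalClosure _).isOpen_compl.preimage
      (continuous_const.mul continuous_id)
  obtain ⟨U, hU⟩ := ProfiniteGrp.exist_openNormalSubgroup_sub_open_nhds_of_one hO (by
    refine ⟨?_, ?_⟩
    · show t * 1 ∈ V
      rwa [mul_one]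
    · show s * 1 ∈ ((Subgroup.zpowers (t ^ p)).topologicalClosure : Set P)ᶜ
      rwa [mul_one])
  have hUn : U.toSubgroup.Normal := U.isNormal'
  -- the element is congruent to a power of `t`
  obtain ⟨N, hN⟩ : ∃ N : ℤ, s⁻¹ * t ^ N ∈ U.toSubgroup := by
    have h1 : IsOpen {x : P | s⁻¹ * x ∈ (U.toSubgroup : Set P)} :=
      U.isOpen'.preimage (continuous_const.mul continuous_id)
    obtain ⟨x, hx1, hx2⟩ := mem_closure_iff.1 hsj _ h1 (by
      show s⁻¹ * s ∈ (U.toSubgroup : Set P)
      rw [inv_mul_cancel]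
      exact U.toSubgroup.one_mem)
    obtain ⟨N, rfl⟩ := Subgroup.mem_zpowers_iff.1 hx2
    exact ⟨N, hx1⟩
  have hNp : ¬ (p : ℤ) ∣ N := by
    rintro ⟨N', rfl⟩
    have h1 := (hU hN).2
    apply h1
    show s * (s⁻¹ * t ^ ((p : ℤ) * N')) ∈ (Subgroup.zpowers (t ^ p)).topologicalClosure
    rw [mul_inv_cancel_left, zpow_mul, zpow_natCast]
    exact Subgroup.le_topologicalClosure _ (Subgroup.zpow_mem_zpowers _ _)
  obtain ⟨i, hi⟩ := (htt.eventually (U.isOpen'.mem_nhds U.toSubgroup.one_mem)).exists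
  have hcop : IsCoprime N ((p : ℤ) ^ i) := by
    refine IsCoprime.pow_right ?_
    rw [isCoprime_comm]
    exact ((Nat.prime_iff_prime_int.1 hp).coprime_iff_not_dvd).2 hNp
  obtain ⟨a, b, hab⟩ := hcop
  -- in the quotient
  let π := QuotientGroup.mk' U.toSubgroup
  have e1 : π (t ^ N) = π s := by
    have h1 : π s = π (t ^ N) := QuotientGroup.eq.2 hN
    exact h1.symm
  have e2 : π (t ^ (p ^ i)) = 1 := (QuotientGroup.eq_one_iff _).2 hi
  have e3 : π t = π (s ^ a) := by
    have h1 : t = (t ^ N) ^ a * (t ^ (p ^ i)) ^ b := by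
      rw [← zpow_natCast t (p ^ i), ← zpow_mul, ← zpow_mul, ← zpow_add]
      have h2 : N * a + ((p ^ i : ℕ) : ℤ) * b = 1 := by
        push_cast
        linarith
      rw [h2, zpow_one]
    have h2 : π t = π ((t ^ N) ^ a * (t ^ (p ^ i)) ^ b) := by rw [← h1]
    rw [h2, map_mul, map_zpow π (t ^ N) a, map_zpow π (t ^ (p ^ i)) b, e1, e2, one_zpow, mul_one,
      map_zpow]
  have e4 : t⁻¹ * s ^ a ∈ U.toSubgroup := QuotientGroup.eq.1 e3
  refine ⟨s ^ a, ?_, Subgroup.zpow_mem_zpowers _ _⟩
  have h5 := (hU e4).1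
  have h6 : t * (t⁻¹ * s ^ a) ∈ V := h5
  rwa [mul_inv_cancel_left] at h6

end

end Pool.Agent.K1H61.NW
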