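import Pool.Agent.K1H61.NW.Newm
import Pool.Agent.K1H61.NW.Padic

/-!
# A point near which the points with infinite orbits are fixed

If near a point every point at which a transformation is not locally of finite order is fixed, then
some power is trivial near the point. For a power of prime order on a suitable open set with fixed
boundary is extended by the identity, and Newman's theorem applies to this map of finite order.
-/

set_option autoImplicit false

open MeasureTheory Set Metric Filter Topology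

namespace Pool.Agent.K1H61.NW

open Pool.Agent.Y485.HS Pool.Agent.Y489.SP Pool.Agent.R775.HS

section
variable {n : ℕ} {X : Type} [TopologicalSpace X]

theorem IF_smul {S : Type} [Group S] [TopologicalSpace S] [MulAction S X] [ContinuousSMul S X]
    {g c : S} (hgc : Commute g c) {z : X} (hz : z ∈ IF (fun w : X => c • w)) :
    g • z ∈ IF (fun w : X => c • w) := by
  have h1 : Tendsto (fun w : X => g⁻¹ • w) (𝓝 (g • z)) (𝓝 z) := by
    have h2 := (continuous_const_smul (T := X) g⁻¹).continuousAt (x := g • z)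
    rw [ContinuousAt, inv_smul_smul] at h2
    exact h2
  filter_upwards [h1.eventually hz] with w hw
  calc c • w = c • (g • (g⁻¹ • w)) := by rw [smul_inv_smul]
    _ = g • (c • (g⁻¹ • w)) := by rw [smul_smul c g, smul_smul g c, hgc.eq]
    _ = g • (g⁻¹ • w) := by rw [hw]
    _ = w := smul_inv_smul _ _

theorem fix_closure [T2Space X] {S : Type} [Group S] [TopologicalSpace S] [IsTopologicalGroup S]
    [MulAction S X] [ContinuousSMul S X] {h : S} {x : X} (hx : h • x = x) {c : S}
    (hc : c ∈ (Subgroup.zpowers h).topologicalClosure) : c • x = x := by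
  have h1 : (Subgroup.zpowers h).topologicalClosure ≤ MulAction.stabilizer S x := by
    refine Subgroup.topologicalClosure_minimal _ ?_ ?_
    · rw [Subgroup.zpowers_le]
      exact hx
    · have h2 : IsClosed {c : S | c • x = x} := by
        have hcont : Continuous (fun c : S => c • x) := by fun_prop
        exact isClosed_eq hcont continuous_const
      exact h2
  exact h1 hc

theorem IF_closure [T2Space X] {S : Type} [Group S] [TopologicalSpace S] [IsTopologicalGroup S]
    [MulAction S X] [ContinuousSMul S X] {h : S} {x : X} (hx : x ∈ IF (fun z : X => h • z)) {c : S}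
    (hc : c ∈ (Subgroup.zpowers h).topologicalClosure) : x ∈ IF (fun z : X => c • z) := by
  filter_upwards [hx] with w hw
  exact fix_closure hw hc

theorem fixed_case (hn : 1 ≤ n) [T2Space X] {S : Type} [Group S] [TopologicalSpace S]
    [IsTopologicalGroup S] [MulAction S X] [ContinuousSMul S X] {h : S}
    (hcomp : IsCompact ((Subgroup.zpowers h).topologicalClosure : Set S))
    (φ : OpenPartialHomeomorph X (E n)) {W0 : Set X} (hW0 : IsOpen W0) {x1 : X} (hx10 : x1 ∈ W0)
    (hx1φ : x1 ∈ φ.source) (hfix0 : ∀ x ∈ W0, x ∉ Zk h → h • x = x) : x1 ∈ Zk h := by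
  classical
  by_contra hcon
  obtain ⟨W, hWdef⟩ : ∃ W : Set X, W = W0 ∩ φ.source := ⟨_, rfl⟩
  have hW : IsOpen W := by rw [hWdef]; exact hW0.inter φ.open_source
  have hx1 : x1 ∈ W := by rw [hWdef]; exact ⟨hx10, hx1φ⟩
  have hWφ : W ⊆ φ.source := by rw [hWdef]; exact inter_subset_right
  have hfix : ∀ x ∈ W, x ∉ Zk h → h • x = x := fun x hx => hfix0 x (by
    rw [hWdef] at hx
    exact hx.1)
  have hx1f : h • x1 = x1 := hfix x1 hx1 hcon
  -- an invariant neighbourhood
  obtain ⟨N, hNdef⟩ : ∃ N : Set X, N = {z | ∀ c ∈ (Subgroup.zpowers h).topologicalClosure,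
      c • z ∈ W} := ⟨_, rfl⟩
  have hNo : IsOpen N := by
    rw [isOpen_iff_mem_nhds]
    intro z hz
    rw [hNdef] at hz ⊢
    have h1 : ∀ c ∈ ((Subgroup.zpowers h).topologicalClosure : Set S),
        ∀ᶠ q : X × S in 𝓝 (z, c), q.2 • q.1 ∈ W := by
      intro c hc
      have hcont : Continuous (fun q : X × S => q.2 • q.1) := by fun_prop
      have hc' : ContinuousAt (fun q : X × S => q.2 • q.1) (z, c) := hcont.continuousAt
      exact hc'.eventually_mem (hW.mem_nhds (hz c hc))
    exact hcomp.eventually_forall_of_forall_eventually (P := fun (x : X) (c : S) => c • x ∈ W) h1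
  have hx1N : x1 ∈ N := by
    rw [hNdef]
    intro c hc
    rw [fix_closure hx1f hc]
    exact hx1
  have hNW : N ⊆ W := by
    intro z hz
    rw [hNdef] at hz
    have h1 := hz 1 (Subgroup.one_mem _)
    rwa [one_smul] at h1
  have hNinv : ∀ c ∈ (Subgroup.zpowers h).topologicalClosure, ∀ z ∈ N, c • z ∈ N := by
    intro c hc z hz
    rw [hNdef] at hz ⊢
    intro c' hc'
    rw [← mul_smul]
    exact hz _ (Subgroup.mul_mem _ hc' hc)
  -- a connected neighbourhood
  have ht : φ x1 ∈ φ.target := φ.map_source hx1φ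
  have hev : ∀ᶠ v in 𝓝 (φ x1), v ∈ φ.target ∧ φ.symm v ∈ N := by
    have h1 := φ.continuousAt_symm ht
    rw [ContinuousAt, φ.left_inv hx1φ] at h1
    exact (show ∀ᶠ v in 𝓝 (φ x1), v ∈ φ.target from φ.open_target.mem_nhds ht).and
      (h1.eventually (hNo.mem_nhds hx1N))
  obtain ⟨ρ, hρ, hball⟩ := Metric.eventually_nhds_iff_ball.1 hev
  obtain ⟨U, hU⟩ : ∃ U : Set X, U = φ.symm '' ball (φ x1) ρ := ⟨_, rfl⟩
  have hUp : IsPreconnected U := by
    rw [hU]
    exact (convex_ball (φ x1) ρ).isPreconnected.image _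
      (φ.continuousOn_symm.mono fun v hv => (hball v hv).1)
  have hUN : U ⊆ N := by
    rw [hU]
    rintro _ ⟨v, hv, rfl⟩
    exact (hball v hv).2
  have hUφ : U ⊆ φ.source := by
    rw [hU]
    rintro _ ⟨v, hv, rfl⟩
    exact φ.map_target (hball v hv).1
  have hUn : U ∈ 𝓝 x1 := by
    refine mem_of_superset ((φ.isOpen_inter_preimage isOpen_ball).mem_nhds
      ⟨hx1φ, mem_ball_self hρ⟩) ?_
    rintro x ⟨hx, hx'⟩
    rw [hU]
    exact ⟨φ x, hx', φ.left_inv hx⟩
  have hnot : ∀ m : ℕ, 0 < m → ¬ ∀ z ∈ U, h ^ m • z = z := by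
    intro m hm hall
    exact hcon ⟨m, hm, mem_of_superset hUn hall⟩
  -- a point of finite local order which is not fixed
  obtain ⟨y, hyU, hyZ, hyne⟩ : ∃ y ∈ U, y ∈ Zk h ∧ h • y ≠ y := by
    by_contra hno
    push Not at hno
    apply hnot 1 one_pos
    intro z hz
    rw [pow_one]
    by_cases hzZ : z ∈ Zk h
    · exact hno z hz hzZ
    · exact hfix z (hNW (hUN hz)) hzZ
  have hex : ∃ m : ℕ, 0 < m ∧ y ∈ IF (fun z : X => h ^ m • z) := hyZ
  obtain ⟨M, hM⟩ : ∃ M : ℕ, M = Nat.find hex := ⟨_, rfl⟩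
  obtain ⟨hM0, hyM⟩ := Nat.find_spec hex
  have hmin : ∀ m : ℕ, 0 < m → m < M → y ∉ IF (fun z : X => h ^ m • z) := by
    intro m hm0 hmM hym
    rw [hM] at hmM
    exact Nat.find_min hex hmM ⟨hm0, hym⟩
  rw [← hM] at hM0 hyM
  have hM1 : M ≠ 1 := by
    rintro h1
    rw [h1] at hyM
    have h2 : h ^ 1 • y = y := hyM.self_of_nhds
    rw [pow_one] at h2
    exact hyne h2
  have hp : (M.minFac).Prime := Nat.minFac_prime hM1
  obtain ⟨M', hM'⟩ := Nat.minFac_dvd M
  have hM'0 : 0 < M' := by
    rcases Nat.eq_zero_or_pos M' with h0 | h0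
    · rw [h0, mul_zero] at hM'
      omega
    · exact h0
  have hM'1 : M' < M := by
    calc M' = 1 * M' := (one_mul _).symm
      _ < M.minFac * M' := Nat.mul_lt_mul_of_pos_right hp.one_lt hM'0
      _ = M := hM'.symm
  obtain ⟨g, hg⟩ : ∃ g : S, g = h ^ M' := ⟨_, rfl⟩
  have hgp : g ^ M.minFac = h ^ M := by rw [hg, ← pow_mul, mul_comm, ← hM']
  have hgK : g ∈ (Subgroup.zpowers h).topologicalClosure := by
    rw [hg]
    exact Subgroup.pow_mem _ (Subgroup.le_topologicalClosure _ (Subgroup.mem_zpowers h)) _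
  have hyg : y ∉ IF (fun z : X => g • z) := by
    rw [hg]
    exact hmin M' hM'0 hM'1
  have hgc : Commute g (h ^ M) := by
    rw [hg]
    exact (Commute.refl h).pow_pow _ _
  obtain ⟨Q, hQ⟩ : ∃ Q : Set X, Q = IF (fun z : X => h ^ M • z) := ⟨_, rfl⟩
  have hQo : IsOpen Q := by rw [hQ]; exact isOpen_IF _
  have hQg : ∀ z ∈ Q, g • z ∈ Q := by
    intro z hz
    rw [hQ] at hz ⊢
    exact IF_smul hgc hz
  have hQM : ∀ z ∈ Q, h ^ M • z = z := by
    intro z hz
    rw [hQ] at hz
    exact hz.self_of_nhds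
  -- the boundary of `Q` is fixed
  have hbd : ∀ z ∈ N, z ∉ Q → z ∈ closure Q → g • z = z := by
    intro z hzN hzQ hzc
    have hzφ : z ∈ φ.source := hWφ (hNW hzN)
    have hzZ : z ∉ Zk h := by
      rintro ⟨m, hm0, hzm⟩
      apply hzQ
      rw [hQ] at hzc ⊢
      refine newman_fin hn φ hzφ m hm0 (h ^ M) ?_ hzc
      have h1 : (h ^ M) ^ m = (h ^ m) ^ M := by rw [← pow_mul, ← pow_mul, mul_comm]
      rw [h1]
      exact IF_subset_pow (h ^ m) M hzm
    exact fix_closure (hfix z (hNW hzN) hzZ) hgK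
  -- the map of finite order
  obtain ⟨τ, hτQ, hτQ'⟩ : ∃ τ : X → X, (∀ z ∈ Q, τ z = g • z) ∧ ∀ z, z ∉ Q → τ z = z :=
    ⟨fun z => if z ∈ Q then g • z else z, fun z hz => if_pos hz, fun z hz => if_neg hz⟩
  have hτc : ContinuousOn τ N := by
    intro z hzN
    refine ContinuousAt.continuousWithinAt ?_
    by_cases hzQ : z ∈ Q
    · have h1 : τ =ᶠ[𝓝 z] fun w => g • w := by
        filter_upwards [hQo.mem_nhds hzQ] with w hw
        exact hτQ w hw
      exact ((continuous_const_smul g).continuousAt).congr h1.symm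
    · by_cases hzc : z ∈ closure Q
      · have hgz := hbd z hzN hzQ hzc
        rw [ContinuousAt, hτQ' z hzQ]
        intro V hV
        have h1 : Tendsto (fun w : X => g • w) (𝓝 z) (𝓝 z) := by
          have h2 := (continuous_const_smul (T := X) g).continuousAt (x := z)
          rw [ContinuousAt, hgz] at h2
          exact h2
        show ∀ᶠ w in 𝓝 z, τ w ∈ V
        filter_upwards [hV, h1.eventually (show ∀ᶠ w in 𝓝 z, w ∈ V from hV)] with w hw1 hw2
        by_cases hwQ : w ∈ Q
        · show τ w ∈ V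
          rw [hτQ w hwQ]
          exact hw2
        · show τ w ∈ V
          rw [hτQ' w hwQ]
          exact hw1
      · have h1 : τ =ᶠ[𝓝 z] id := by
          filter_upwards [isClosed_closure.isOpen_compl.mem_nhds hzc] with w hw
          exact hτQ' w fun h => hw (subset_closure h)
        exact continuousAt_id.congr h1.symm
  have hτm : MapsTo τ N N := by
    intro z hzN
    by_cases hzQ : z ∈ Q
    · rw [hτQ z hzQ]
      exact hNinv g hgK z hzN
    · rw [hτQ' z hzQ]
      exact hzN
  have hτp : ∀ z ∈ N, τ^[M.minFac] z = z := by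
    intro z _
    by_cases hzQ : z ∈ Q
    · have h1 : ∀ j : ℕ, τ^[j] z = g ^ j • z ∧ g ^ j • z ∈ Q := by
        intro j
        induction j with
        | zero => simpa using hzQ
        | succ j ih =>
          rw [Function.iterate_succ_apply', ih.1, hτQ _ ih.2, pow_succ', mul_smul]
          exact ⟨rfl, hQg _ ih.2⟩
      rw [(h1 _).1, hgp]
      exact hQM z hzQ
    · exact Function.iterate_fixed (hτQ' z hzQ) _
  have hnew : ∀ z ∈ U, z ∈ closure (IF τ) → z ∈ IF τ := fun z hzU hzc =>
    newman_map hn hp φ hNo hτc hτm hτp (hUN hzU) (hUφ hzU) hzc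
  by_cases hne : (U ∩ IF τ).Nonempty
  · have h1 : U ⊆ IF τ := hUp.subset_of_closure_inter_subset (isOpen_IF τ) hne
      fun z hz => hnew z hz.2 hz.1
    apply hyg
    have h2 : y ∈ IF τ := h1 hyU
    have hyQ : y ∈ Q := by rw [hQ]; exact hyM
    filter_upwards [h2, hQo.mem_nhds hyQ] with w hw1 hw2
    rw [← hτQ w hw2]
    exact hw1
  · apply hnot M hM0
    intro z hzU
    by_cases hzc : z ∈ closure Q
    · have hcl : IsClosed {z : X | h ^ M • z = z} :=
        isClosed_eq (continuous_const_smul _) continuous_id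
      exact closure_minimal hQM hcl hzc
    · exfalso
      apply hne
      refine ⟨z, hzU, ?_⟩
      filter_upwards [isClosed_closure.isOpen_compl.mem_nhds hzc] with w hw
      exact hτQ' w fun h => hw (subset_closure h)

end

end Pool.Agent.K1H61.NW
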