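import Pool.Agent.K1H61.NW.Newm
import Pool.Agent.K1H61.NW.Padic
import Pool.Agent.R775.HC.C5

/-!
# Baire's theorem for the group
-/

set_option autoImplicit false

open MeasureTheory Set Metric Filter Topology TopologicalSpace
open scoped ENNReal NNReal

namespace Pool.Agent.K1H61.NW

open Pool.Agent.Y485.HS Pool.Agent.Y489.SP Pool.Agent.R775.HS Pool.Agent.R775.HC

section
variable {n : ℕ} {X : Type} [MetricSpace X] [MeasurableSpace X] [BorelSpace X]

/-- Some element of a procyclic group is irregular, with all its powers, at all points of the ball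
near which the group is not locally finite. -/
theorem exists_irr (hn : 2 ≤ n) {S : Type} [Group S] [TopologicalSpace S] [IsTopologicalGroup S]
    [CompactSpace S] [T2Space S] [TotallyDisconnectedSpace S] [MulAction S X]
    [ContinuousSMul S X] {p : ℕ} (hp : p.Prime) {k : S}
    (hgen : (Subgroup.zpowers k).topologicalClosure = ⊤)
    (hk : Tendsto (fun j : ℕ => k ^ p ^ j) atTop (𝓝 1))
    {φ : OpenPartialHomeomorph X (E n)} (hφ : φ ∈ BL n X) (hs : Small φ (univ : Set S))
    (htf : ∀ m : ℕ, 0 < m → k ^ m ≠ 1) :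
    ∃ s : S, s ≠ 1 ∧ ∀ v ∈ ball (0 : E n) 1, φ.symm v ∉ Zk k → ∀ m : ℕ, 0 < m →
      ¬ SobAt n (fun x : X => s ^ m • x) (φ.symm v) := by
  classical
  by_contra hall
  push Not at hall
  obtain ⟨ht4, hs4⟩ := hs
  have hb4 : ball (0 : E n) 1 ⊆ closedBall 0 4 :=
    ball_subset_closedBall.trans (closedBall_subset_closedBall (by norm_num))
  have hbt : ball (0 : E n) 1 ⊆ φ.target := hb4.trans ht4
  have hr : ∀ j : ℕ, (0 : ℝ) < (1 / 2) ^ j := fun j => by positivity
  have hrb : Tendsto (fun j : ℕ => ((1 : ℝ) / 2) ^ j * (2 ^ j / (j + 1))) atTop (𝓝 0) := by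
    have h1 : Tendsto (fun j : ℕ => 1 / ((j : ℝ) + 1)) atTop (𝓝 0) :=
      tendsto_one_div_add_atTop_nhds_zero_nat
    refine h1.congr fun j => ?_
    have h2 : ((1 : ℝ) / 2) ^ j * 2 ^ j = 1 := by
      rw [← mul_pow]
      norm_num
    rw [← mul_div_assoc, h2]
  have hcomm : ∀ s : S, Commute s k := fun s => comm_of_closure (by rw [hgen]; exact Subgroup.mem_top s)
  have hcount : (countableBasis (E n)).Countable := countable_countableBasis (E n)
  have : Countable (countableBasis (E n)) := hcount.to_subtype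
  let f : Option ((countableBasis (E n)) × (countableBasis (E n)) × ℕ × ℕ) → Set S := fun o =>
    match o with
    | none => {1}
    | some q => {s | (∃ v ∈ q.1.1, φ.symm v ∉ Zk k) ∧ 0 < q.2.2.2 ∧ s ^ q.2.2.2 ∈
        Dset φ φ (fun j => (1 / 2) ^ j) (fun j => 2 ^ j / (j + 1)) q.1.1 q.2.1.1 q.2.2.1}
  have hfc : ∀ o, IsClosed (f o) := by
    rintro (_ | q)
    · exact isClosed_singleton
    · by_cases hq : (∃ v ∈ q.1.1, φ.symm v ∉ Zk k) ∧ 0 < q.2.2.2
      · have : f (some q) = (fun s : S => s ^ q.2.2.2) ⁻¹' Dset φ φ (fun j => (1 / 2) ^ j)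
            (fun j => 2 ^ j / (j + 1)) q.1.1 q.2.1.1 q.2.2.1 := by
          ext s
          exact ⟨fun h => h.2.2, fun h => ⟨hq.1, hq.2, h⟩⟩
        rw [this]
        exact (isClosed_Dset _ _ _ _ _ _ _).preimage (continuous_pow _)
      · have : f (some q) = ∅ := by
          ext s
          simp only [f, mem_ofPred_eq, mem_empty_iff_false, iff_false]
          exact fun h => hq ⟨h.1, h.2.1⟩
        rw [this]
        exact isClosed_empty
  have hU : ⋃ o, f o = univ := by
    ext s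
    simp only [mem_iUnion, mem_univ, iff_true]
    by_cases hs1 : s = 1
    · exact ⟨none, hs1⟩
    obtain ⟨v, hv, hvZ, m, hm0, hsob⟩ := hall s hs1
    have hvt := hbt hv
    have hxs : φ.symm v ∈ φ.source := φ.map_target hvt
    have hsx : s ^ m • φ.symm v ∈ φ.source := (hs4 (s ^ m) (mem_univ _) v (hb4 hv)).1
    obtain ⟨ρ, hρ, m', hm'⟩ := ener_at hn hφ (s ^ m) hxs hsx hsob
    rw [φ.right_inv hvt] at hm'
    set W : Set X := (φ.source ∩ φ ⁻¹' ball v ρ) ∩ {x | s ^ m • x ∈ φ.source} with hW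
    have hWo : IsOpen W := (φ.isOpen_inter_preimage isOpen_ball).inter
      (φ.open_source.preimage (continuous_const_smul (s ^ m)))
    have hxW : φ.symm v ∈ W := ⟨⟨hxs, by
      show φ (φ.symm v) ∈ ball v ρ
      rw [φ.right_inv hvt]
      exact mem_ball_self hρ⟩, hsx⟩
    obtain ⟨B, hB, B', hB', hvB, hD⟩ := exists_Dset' (S := S) (s := s ^ m) φ φ
      (r := fun j => (1 / 2) ^ j) (b := fun j => 2 ^ j / (j + 1)) hWo hxW
      (fun x hx => hx.1.1) (fun x hx => hx.2) (m := m') (fun j hj => by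
        refine ener_mono ?_ le_rfl (hm' j hj)
        rintro _ ⟨x, hx, rfl⟩
        exact ball_subset_closedBall hx.1.2)
    rw [φ.right_inv hvt] at hvB
    exact ⟨some (⟨B, hB⟩, ⟨B', hB'⟩, m', m), ⟨v, hvB, hvZ⟩, hm0, hD⟩
  obtain ⟨o, s0, hs0⟩ := nonempty_interior_of_iUnion_of_closed (f := f) hfc hU
  rcases o with _ | ⟨⟨B, hB⟩, ⟨B', hB'⟩, m', m⟩
  · -- the group is finite
    have h1 : s0 = 1 := (interior_subset hs0 : s0 ∈ ({1} : Set S))
    have h2 : IsOpen ({1} : Set S) := by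
      rw [isOpen_iff_mem_nhds]
      rintro x rfl
      rw [h1] at hs0
      exact mem_interior_iff_mem_nhds.1 hs0
    have : DiscreteTopology S := discreteTopology_of_isOpen_singleton_one h2
    have : Finite S := finite_of_compact_of_discrete
    exact htf (orderOf k) (orderOf_pos k) (pow_orderOf_eq_one k)
  · have hopen : IsOpen ((fun c : S => s0 * c) ⁻¹'
        (interior (f (some (⟨B, hB⟩, ⟨B', hB'⟩, m', m))))) :=
      isOpen_interior.preimage (continuous_const.mul continuous_id)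
    obtain ⟨M, hM⟩ := ProfiniteGrp.exist_openNormalSubgroup_sub_open_nhds_of_one hopen (by
      rw [mem_preimage, mul_one]; exact hs0)
    have hf : ∀ c ∈ M.toSubgroup, s0 * c ∈ f (some (⟨B, hB⟩, ⟨B', hB'⟩, m', m)) := fun c hc =>
      interior_subset (hM hc)
    obtain ⟨⟨v1, hv1B, hv1Z⟩, hm0, -⟩ := hf 1 M.toSubgroup.one_mem
    simp only at hm0 hv1B
    obtain ⟨a, ha⟩ := (hk.eventually (M.isOpen'.mem_nhds M.toSubgroup.one_mem)).exists
    have ha' : k ^ p ^ a ∈ M.toSubgroup := ha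
    have hKo : IsOpen ((Subgroup.zpowers (k ^ (p ^ a * m))).topologicalClosure : Set S) :=
      open_closure_pow hgen (Nat.mul_pos (pow_pos hp.pos a) hm0)
    have hD : ∀ c ∈ (Subgroup.zpowers (k ^ (p ^ a * m))).topologicalClosure,
        s0 ^ m * c ∈ Dset φ φ (fun j => (1 / 2) ^ j) (fun j => 2 ^ j / (j + 1)) B B' m' := by
      have hcl : IsClosed {c : S | s0 ^ m * c ∈
          Dset φ φ (fun j => (1 / 2) ^ j) (fun j => 2 ^ j / (j + 1)) B B' m'} :=
        (isClosed_Dset _ _ _ _ _ _ _).preimage (continuous_const.mul continuous_id)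
      intro c hc
      refine closure_minimal ?_ hcl hc
      intro c hc
      obtain ⟨z, rfl⟩ := Subgroup.mem_zpowers_iff.1 hc
      have h1 : s0 ^ m * (k ^ (p ^ a * m)) ^ z = (s0 * (k ^ p ^ a) ^ z) ^ m := by
        have h2 : Commute s0 ((k ^ p ^ a) ^ z) := ((hcomm s0).pow_right _).zpow_right _
        have h3 : (k ^ (p ^ a * m)) ^ z = ((k ^ p ^ a) ^ z) ^ m := by
          obtain ⟨u, hu⟩ : ∃ u : S, u = k ^ p ^ a := ⟨_, rfl⟩
          rw [pow_mul, ← hu, ← zpow_natCast, ← zpow_natCast, ← zpow_mul, ← zpow_mul, mul_comm]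
        rw [h2.mul_pow, h3]
      rw [mem_ofPred_eq, h1]
      exact (hf _ (Subgroup.zpow_mem _ ha' z)).2.2
    obtain ⟨K1, hK1o, hK1t⟩ := coset_triv (by omega : 1 ≤ n) hr hrb hKo hD hv1B
    obtain ⟨i, hi⟩ := (hk.eventually (hK1o.mem_nhds K1.one_mem)).exists
    apply hv1Z
    refine ⟨p ^ i, pow_pos hp.pos i, ?_⟩
    filter_upwards [hK1t] with x hx
    exact hx _ hi

end

end Pool.Agent.K1H61.NW
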