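import Pool.Agent.K1H61.NW.Irr
import Pool.Agent.K1H61.NW.Fixc

/-!
# Locally compact groups of homeomorphisms with thin exceptional sets
-/

set_option autoImplicit false

open MeasureTheory Set Metric Filter Topology TopologicalSpace
open scoped ENNReal NNReal

namespace Pool.Agent.K1H61.NW

open Pool.Agent.Y485.HS Pool.Agent.Y489.SP Pool.Agent.R775.HS Pool.Agent.R775.HC
open Pool.Agent.W660.GY (NSS GY3)

section
variable {n : ℕ} {X : Type} [MetricSpace X]

/-- every regular point is in the closure of arbitrarily small connected subsets of the complement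
of the set -/
def Acc (n : ℕ) {X : Type} [MetricSpace X] (D : Set X) : Prop :=
  ∀ x ∈ RegA (BL n X), ∀ W ∈ 𝓝 x, ∃ C : Set X, IsPreconnected C ∧ C ⊆ W \ D ∧ x ∈ closure C

/-- the points at which the transformation has finite orbit or is regular, together with a power,
cover the regular points up to countably many closed sets -/
def RegP (n : ℕ) {X : Type} [MetricSpace X] [MeasurableSpace X] [BorelSpace X] {S : Type}
    [Group S] [MulAction S X] (s : S) : Prop :=
  ∃ D : ℕ → Set X, (∀ i, IsClosed (D i) ∧ Acc n (D i)) ∧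
    ∀ x ∈ RegA (BL n X), (∀ i, x ∉ D i) →
    (∃ m : ℕ, 0 < m ∧ s ^ m • x = x) ∨ ∃ m : ℕ, 0 < m ∧ SobAt n (fun z : X => s ^ m • z) x

/-- If all points of an open set of regular points near which no power is trivial have finite
orbits, then there are no such points. -/
theorem finite_orbits (hn : 1 ≤ n) {S : Type} [Group S] [TopologicalSpace S]
    [IsTopologicalGroup S] [CompactSpace S] [MulAction S X] [ContinuousSMul S X] {k : S}
    {W : Set X} (hW : IsOpen W) (hWr : W ⊆ RegA (BL n X))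
    (hfin : ∀ x ∈ W, x ∉ Zk k → ∃ m : ℕ, 0 < m ∧ k ^ m • x = x) : W ⊆ Zk k := by
  classical
  intro x1 hx1
  by_contra hcon
  obtain ⟨φ, hφ, hxφ⟩ := hWr hx1
  have ht : φ x1 ∈ φ.target := φ.map_source hxφ
  have hev : ∀ᶠ v in 𝓝 (φ x1), v ∈ φ.target ∧ φ.symm v ∈ W := by
    have h1 := φ.continuousAt_symm ht
    rw [ContinuousAt, φ.left_inv hxφ] at h1
    exact (show ∀ᶠ v in 𝓝 (φ x1), v ∈ φ.target from φ.open_target.mem_nhds ht).and
      (h1.eventually (hW.mem_nhds hx1))
  obtain ⟨ρ, hρ, hball⟩ := Metric.eventually_nhds_iff_ball.1 hev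
  have hbt : ball (φ x1) ρ ⊆ φ.target := fun v hv => (hball v hv).1
  have hDo : IsOpen (ball (φ x1) ρ ∩ φ.symm ⁻¹' (Zk k)) :=
    (φ.continuousOn_symm.mono hbt).isOpen_inter_preimage isOpen_ball (isOpen_Zk k)
  obtain ⟨B, hB⟩ : ∃ B : Set (E n), B = ball (φ x1) ρ ∩ (ball (φ x1) ρ ∩ φ.symm ⁻¹' (Zk k))ᶜ :=
    ⟨_, rfl⟩
  have hBm : ∀ v, v ∈ B ↔ v ∈ ball (φ x1) ρ ∧ φ.symm v ∉ Zk k := by
    intro v
    rw [hB]
    constructor
    · rintro ⟨h1, h2⟩
      exact ⟨h1, fun h => h2 ⟨h1, h⟩⟩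
    · rintro ⟨h1, h2⟩
      exact ⟨h1, fun h => h2 h.2⟩
  have hBlc : IsLocallyClosed B := by
    rw [hB]
    exact isOpen_ball.isLocallyClosed.inter hDo.isClosed_compl.isLocallyClosed
  have : LocallyCompactSpace B := hBlc.locallyCompactSpace
  have : Nonempty B := ⟨⟨φ x1, (hBm _).2 ⟨mem_ball_self hρ, by rwa [φ.left_inv hxφ]⟩⟩⟩
  have hφc : Continuous (fun v : B => φ.symm v) := by
    refine φ.continuousOn_symm.comp_continuous continuous_subtype_val fun v => ?_
    exact hbt ((hBm v).1 v.2).1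
  let f : ℕ → Set B := fun m => {v | k ^ (m + 1) • φ.symm v = φ.symm v}
  have hfc : ∀ m, IsClosed (f m) := fun m => isClosed_eq (hφc.const_smul _) hφc
  have hfU : ⋃ m, f m = univ := by
    ext v
    simp only [mem_iUnion, mem_univ, iff_true]
    obtain ⟨hv1, hv2⟩ := (hBm v).1 v.2
    obtain ⟨m, hm, hfix⟩ := hfin _ (hball v hv1).2 hv2
    refine ⟨m - 1, ?_⟩
    show k ^ (m - 1 + 1) • φ.symm v = φ.symm v
    rw [show m - 1 + 1 = m by omega]
    exact hfix
  obtain ⟨m, v1, hv1⟩ := nonempty_interior_of_iUnion_of_closed (f := f) hfc hfU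
  obtain ⟨O, hO, hOv⟩ := isOpen_induced_iff.1 (isOpen_interior (s := f m))
  have hOf : ∀ v : B, (v : E n) ∈ O → v ∈ f m := by
    intro v hv
    have h1 : v ∈ interior (f m) := by rw [← hOv]; exact hv
    exact interior_subset h1
  obtain ⟨hv1b, hv1Z⟩ := (hBm v1).1 v1.2
  have hW2o : IsOpen (φ.source ∩ φ ⁻¹' (O ∩ ball (φ x1) ρ)) :=
    φ.isOpen_inter_preimage (hO.inter isOpen_ball)
  have hx2s : φ.symm v1 ∈ φ.source := φ.map_target (hbt hv1b)
  have hx2W : φ.symm v1 ∈ φ.source ∩ φ ⁻¹' (O ∩ ball (φ x1) ρ) := by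
    refine ⟨hx2s, ?_⟩
    rw [mem_preimage, φ.right_inv (hbt hv1b)]
    refine ⟨?_, hv1b⟩
    have h1 : v1 ∈ Subtype.val ⁻¹' O := by rw [hOv]; exact hv1
    exact h1
  have hZ : (Zk (k ^ (m + 1)) : Set X) = Zk k := by
    ext x
    constructor
    · rintro ⟨j, hj, hx⟩
      refine ⟨(m + 1) * j, Nat.mul_pos (Nat.succ_pos m) hj, ?_⟩
      rw [pow_mul]
      exact hx
    · rintro ⟨j, hj, hx⟩
      refine ⟨j, hj, ?_⟩
      rw [← pow_mul, mul_comm, pow_mul]
      exact IF_subset_pow (k ^ j) (m + 1) hx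
  apply hv1Z
  rw [← hZ]
  refine fixed_case hn (Subgroup.isClosed_topologicalClosure _).isCompact φ hW2o hx2W hx2s ?_
  rintro x ⟨hx, hxO, hxb⟩ hxZ
  rw [hZ] at hxZ
  have h1 : φ x ∈ B := (hBm _).2 ⟨hxb, by rwa [φ.left_inv hx]⟩
  have h2 : k ^ (m + 1) • φ.symm (φ x) = φ.symm (φ x) := hOf ⟨φ x, h1⟩ hxO
  rwa [φ.left_inv hx] at h2

theorem thin_case (hn : 1 ≤ n) {S : Type} [Group S] [TopologicalSpace S]
    [IsTopologicalGroup S] [CompactSpace S] [MulAction S X]
    [ContinuousSMul S X] {k : S} {D : Set X} (hD : Acc n D) {W : Set X} (hW : IsOpen W) {x1 : X}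
    (hx1 : x1 ∈ W) (hWr : W ⊆ RegA (BL n X)) (hWD : ∀ x ∈ W, x ∉ Zk k → x ∈ D) : x1 ∈ Zk k := by
  refine finite_orbits hn hW hWr (fun x hx _ => ?_) hx1
  obtain ⟨C, hCp, hCs, hxC⟩ := hD x (hWr hx) W (hW.mem_nhds hx)
  obtain ⟨c, hc⟩ : C.Nonempty := closure_nonempty_iff.1 ⟨x, hxC⟩
  have hZ : C ⊆ Zk k := by
    intro z hz
    by_contra h
    exact (hCs hz).2 (hWD z (hCs hz).1 h)
  obtain ⟨j, hj, hcj⟩ := hZ hc
  have hCj := spread_Zk hn k hCp (fun z hz => hWr (hCs hz).1) hZ hc hcj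
  have hcl : IsClosed {z : X | k ^ j • z = z} :=
    isClosed_eq (continuous_const_smul _) continuous_id
  exact ⟨j, hj, closure_minimal (fun z hz => (hCj hz).self_of_nhds) hcl hxC⟩

variable [MeasurableSpace X] [BorelSpace X]

/-- the local theorem -/
theorem local_Zk (hn : 2 ≤ n) {S : Type} [Group S] [TopologicalSpace S] [IsTopologicalGroup S]
    [CompactSpace S] [T2Space S] [TotallyDisconnectedSpace S] [MulAction S X]
    [ContinuousSMul S X] {p : ℕ} (hp : p.Prime) {k : S}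
    (hk : Tendsto (fun j : ℕ => k ^ p ^ j) atTop (𝓝 1))
    (hreg : ∀ s ∈ (Subgroup.zpowers k).topologicalClosure, RegP (X := X) n s)
    {φ : OpenPartialHomeomorph X (E n)} (hφ : φ ∈ BL n X) {b0 : X} (hb0 : b0 ∈ φ.source)
    (hφ0 : φ b0 = 0) (hsm : Small φ ((Subgroup.zpowers k).topologicalClosure : Set S)) :
    b0 ∈ (Zk k : Set X) := by
  classical
  by_contra hcon
  obtain ⟨C, hC⟩ : ∃ C : Subgroup S, C = (Subgroup.zpowers k).topologicalClosure := ⟨_, rfl⟩
  have hkC : k ∈ C := by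
    rw [hC]
    exact Subgroup.le_topologicalClosure _ (Subgroup.mem_zpowers k)
  have hCc : IsClosed (C : Set S) := by rw [hC]; exact Subgroup.isClosed_topologicalClosure _
  have : CompactSpace C := isCompact_iff_compactSpace.1 hCc.isCompact
  let kC : C := ⟨k, hkC⟩
  have hgen : (Subgroup.zpowers kC).topologicalClosure = ⊤ := by
    rw [eq_top_iff]
    intro x _
    show x ∈ closure ((Subgroup.zpowers kC : Subgroup C) : Set C)
    rw [closure_subtype]
    have h1 : (x : S) ∈ closure ((Subgroup.zpowers k : Subgroup S) : Set S) := by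
      rw [← Subgroup.topologicalClosure_coe, ← hC]
      exact x.2
    refine closure_mono ?_ h1
    intro y hy
    obtain ⟨z, rfl⟩ := Subgroup.mem_zpowers_iff.1 hy
    exact ⟨kC ^ z, Subgroup.zpow_mem_zpowers _ _, by simp [kC]⟩
  have hkt : Tendsto (fun j : ℕ => kC ^ p ^ j) atTop (𝓝 1) := by
    rw [tendsto_subtype_rng]
    simpa [kC] using hk
  rw [← hC] at hsm hreg
  have hsmC : Small φ (univ : Set C) := ⟨hsm.1, fun c _ v hv => hsm.2 c c.2 v hv⟩
  have hZ : (Zk kC : Set X) = Zk k := by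
    ext x
    rfl
  have htf : ∀ m : ℕ, 0 < m → kC ^ m ≠ 1 := by
    intro m hm h
    apply hcon
    refine ⟨m, hm, Eventually.of_forall fun w => ?_⟩
    have h1 : k ^ m = 1 := congrArg Subtype.val h
    show k ^ m • w = w
    rw [h1, one_smul]
  have htf' : ∀ m : ℕ, 0 < m → k ^ m ≠ 1 := by
    intro m hm h
    exact htf m hm (Subtype.ext h)
  obtain ⟨s, hs1, hirr⟩ := exists_irr hn hp hgen hkt hφ hsmC htf
  rw [hZ] at hirr
  obtain ⟨D, hD, hDx⟩ := hreg s s.2
  have hsC : (s : S) ∈ (Subgroup.zpowers k).topologicalClosure := by rw [← hC]; exact s.2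
  have hs1' : (s : S) ≠ 1 := fun h => hs1 (Subtype.ext h)
  have hstf : ∀ m : ℕ, 0 < m → (s : S) ^ m ≠ 1 := by
    intro m hm h
    obtain ⟨j, hj, hkj⟩ := pow_mem_of_ne hp hk hsC hs1'
    have h1 := pow_mem_closure m hkj
    rw [h, ← pow_mul] at h1
    have h2 : (Subgroup.zpowers (1 : S)).topologicalClosure ≤ ⊥ := by
      refine Subgroup.topologicalClosure_minimal _ (by simp) ?_
      rw [Subgroup.coe_bot]
      exact isClosed_singleton
    exact htf' (j * m) (Nat.mul_pos hj hm) ((Subgroup.mem_bot).1 (h2 h1))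
  -- Baire's theorem in the chart
  have hb4 : ball (0 : E n) 1 ⊆ closedBall 0 4 :=
    ball_subset_closedBall.trans (closedBall_subset_closedBall (by norm_num))
  have hbt : ball (0 : E n) 1 ⊆ φ.target := hb4.trans hsm.1
  have hDo : IsOpen (ball (0 : E n) 1 ∩ φ.symm ⁻¹' (Zk k)) :=
    (φ.continuousOn_symm.mono hbt).isOpen_inter_preimage isOpen_ball (isOpen_Zk k)
  obtain ⟨B, hB⟩ : ∃ B : Set (E n), B = ball (0 : E n) 1 ∩ (ball (0 : E n) 1 ∩ φ.symm ⁻¹' (Zk k))ᶜ :=
    ⟨_, rfl⟩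
  have hBm : ∀ v, v ∈ B ↔ v ∈ ball (0 : E n) 1 ∧ φ.symm v ∉ Zk k := by
    intro v
    rw [hB]
    constructor
    · rintro ⟨h1, h2⟩
      exact ⟨h1, fun h => h2 ⟨h1, h⟩⟩
    · rintro ⟨h1, h2⟩
      exact ⟨h1, fun h => h2 h.2⟩
  have hBlc : IsLocallyClosed B := by
    rw [hB]
    exact isOpen_ball.isLocallyClosed.inter hDo.isClosed_compl.isLocallyClosed
  have : LocallyCompactSpace B := hBlc.locallyCompactSpace
  have : Nonempty B := ⟨⟨0, (hBm 0).2 ⟨by simp, by
    rw [← hφ0, φ.left_inv hb0]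
    exact hcon⟩⟩⟩
  have hφc : Continuous (fun v : B => φ.symm v) := by
    refine φ.continuousOn_symm.comp_continuous continuous_subtype_val fun v => ?_
    exact hbt ((hBm v).1 v.2).1
  let f : ℕ ⊕ ℕ → Set B := Sum.elim (fun i => {v | φ.symm v ∈ D i})
    (fun m => {v | (s : S) ^ (m + 1) • φ.symm v = φ.symm v})
  have hfc : ∀ o, IsClosed (f o) := by
    rintro (i | m)
    · exact (hD i).1.preimage hφc
    · exact isClosed_eq (hφc.const_smul _) hφc
  have hfU : ⋃ o, f o = univ := by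
    ext v
    simp only [mem_iUnion, mem_univ, iff_true]
    obtain ⟨hv1, hv2⟩ := (hBm v).1 v.2
    have hvr : φ.symm v ∈ RegA (BL n X) := ⟨φ, hφ, φ.map_target (hbt hv1)⟩
    by_contra hno
    push Not at hno
    rcases hDx _ hvr (fun i hi => hno (Sum.inl i) hi) with ⟨m, hm, hfix⟩ | ⟨m, hm, hsob⟩
    · refine hno (Sum.inr (m - 1)) ?_
      show (s : S) ^ (m - 1 + 1) • φ.symm v = φ.symm v
      rw [show m - 1 + 1 = m by omega]
      exact hfix
    · exact hirr v hv1 hv2 m hm hsob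
  obtain ⟨o, v1, hv1⟩ := nonempty_interior_of_iUnion_of_closed (f := f) hfc hfU
  obtain ⟨O, hO, hOv⟩ := isOpen_induced_iff.1 (isOpen_interior (s := f o))
  have hOf : ∀ v : B, (v : E n) ∈ O → v ∈ f o := by
    intro v hv
    have h1 : v ∈ interior (f o) := by rw [← hOv]; exact hv
    exact interior_subset h1
  obtain ⟨hv1b, hv1Z⟩ := (hBm v1).1 v1.2
  obtain ⟨W, hW⟩ : ∃ W : Set X, W = φ.source ∩ φ ⁻¹' (O ∩ ball 0 1) := ⟨_, rfl⟩
  have hWo : IsOpen W := by rw [hW]; exact φ.isOpen_inter_preimage (hO.inter isOpen_ball)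
  have hx1s : φ.symm v1 ∈ φ.source := φ.map_target (hbt hv1b)
  have hx1W : φ.symm v1 ∈ W := by
    rw [hW]
    refine ⟨hx1s, ?_⟩
    rw [mem_preimage, φ.right_inv (hbt hv1b)]
    refine ⟨?_, hv1b⟩
    have h1 : v1 ∈ Subtype.val ⁻¹' O := by rw [hOv]; exact hv1
    exact h1
  have hWr : W ⊆ RegA (BL n X) := by
    rw [hW]
    exact fun x hx => ⟨φ, hφ, hx.1⟩
  have hWf : ∀ x ∈ W, x ∉ Zk k → ∃ v : B, v ∈ f o ∧ φ.symm v = x := by
    intro x hx hxZ
    rw [hW] at hx
    have h1 : φ x ∈ B := (hBm _).2 ⟨hx.2.2, by rw [φ.left_inv hx.1]; exact hxZ⟩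
    exact ⟨⟨φ x, h1⟩, hOf _ hx.2.1, φ.left_inv hx.1⟩
  apply hv1Z
  rcases o with i | m
  · refine thin_case (by omega) (hD i).2 hWo hx1W hWr fun x hx hxZ => ?_
    obtain ⟨v, hv, rfl⟩ := hWf x hx hxZ
    exact hv
  · obtain ⟨h, hh⟩ : ∃ h : S, h = (s : S) ^ (m + 1) := ⟨_, rfl⟩
    have hhC : h ∈ (Subgroup.zpowers k).topologicalClosure := by
      rw [hh]
      exact Subgroup.pow_mem _ hsC _
    have hh1 : h ≠ 1 := by rw [hh]; exact hstf _ (Nat.succ_pos m)
    have hkh : (Zk k : Set X) ⊆ Zk h := by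
      rintro x ⟨j, hj, hx⟩
      exact ⟨j, hj, IF_closure hx (pow_mem_closure j hhC)⟩
    have hhk : (Zk h : Set X) ⊆ Zk k := by
      rintro x ⟨j, hj, hx⟩
      have h2 : h ^ j ∈ (Subgroup.zpowers k).topologicalClosure := Subgroup.pow_mem _ hhC _
      have h3 : h ^ j ≠ 1 := by
        rw [hh, ← pow_mul]
        exact hstf _ (Nat.mul_pos (Nat.succ_pos m) hj)
      obtain ⟨i, hi, hki⟩ := pow_mem_of_ne hp hk h2 h3
      exact ⟨i, hi, IF_closure hx hki⟩
    refine hhk (fixed_case (by omega) (Subgroup.isClosed_topologicalClosure _).isCompact φ hWo hx1W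
      hx1s fun x hx hxZ => ?_)
    obtain ⟨v, hv, rfl⟩ := hWf x hx fun h => hxZ (hkh h)
    rw [hh]
    exact hv

omit [MetricSpace X] [MeasurableSpace X] [BorelSpace X] in
/-- the elements of the closure of the powers -/
theorem tendsto_of_closure {S : Type} [Group S] [TopologicalSpace S]
    [IsTopologicalGroup S] [CompactSpace S] [T2Space S] [TotallyDisconnectedSpace S] {p : ℕ}
    {k s : S} (hk : Tendsto (fun j : ℕ => k ^ p ^ j) atTop (𝓝 1))
    (hs : s ∈ (Subgroup.zpowers k).topologicalClosure) :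
    Tendsto (fun j : ℕ => s ^ p ^ j) atTop (𝓝 1) := by
  rw [tendsto_def]
  intro V hV
  obtain ⟨O, hOV, hO, hO1⟩ := mem_nhds_iff.1 hV
  obtain ⟨U, hU⟩ := ProfiniteGrp.exist_openNormalSubgroup_sub_open_nhds_of_one hO hO1
  filter_upwards [hk.eventually (U.isOpen'.mem_nhds U.toSubgroup.one_mem)] with j hj
  have hj' : k ^ p ^ j ∈ U.toSubgroup := hj
  have hle : (Subgroup.zpowers (k ^ p ^ j)).topologicalClosure ≤ U.toSubgroup :=
    Subgroup.topologicalClosure_minimal _ ((Subgroup.zpowers_le).2 hj')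
      (Subgroup.isClosed_of_isOpen _ U.isOpen')
  exact hOV (hU (hle (pow_mem_closure _ hs)))

/-- a power is trivial -/
theorem pow_trivial (hn : 2 ≤ n) (hdense : Dense (RegA (BL n X)))
    (hconn : IsPreconnected (RegA (BL n X))) {S : Type} [Group S] [TopologicalSpace S]
    [IsTopologicalGroup S] [CompactSpace S] [T2Space S] [TotallyDisconnectedSpace S]
    [MulAction S X] [ContinuousSMul S X] {p : ℕ} (hp : p.Prime) {k : S}
    (hk : Tendsto (fun j : ℕ => k ^ p ^ j) atTop (𝓝 1))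
    (hreg : ∀ s : S, Tendsto (fun j : ℕ => s ^ p ^ j) atTop (𝓝 1) → RegP (X := X) n s) :
    ∃ m : ℕ, 0 < m ∧ ∀ x : X, k ^ m • x = x := by
  rcases isEmpty_or_nonempty X with hX | hX
  · exact ⟨1, one_pos, fun x => (hX.false x).elim⟩
  obtain ⟨x0, hx0⟩ := hdense.nonempty
  have hall : RegA (BL n X) ⊆ Zk k := by
    intro b hb
    obtain ⟨φ, hφ, hbφ, hφ0, H1, hH1o, hH1s⟩ := start' (stable_BL n X) (H := S) hb
    obtain ⟨i, hi⟩ := (hk.eventually (hH1o.mem_nhds H1.one_mem)).exists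
    have hi' : k ^ p ^ i ∈ H1 := hi
    have hle : (Subgroup.zpowers (k ^ p ^ i)).topologicalClosure ≤ H1 :=
      Subgroup.topologicalClosure_minimal _ ((Subgroup.zpowers_le).2 hi')
        (Subgroup.isClosed_of_isOpen H1 hH1o)
    have hk1 : Tendsto (fun j : ℕ => (k ^ p ^ i) ^ p ^ j) atTop (𝓝 1) := by
      have h1 := (tendsto_add_atTop_iff_nat i).2 hk
      refine h1.congr fun j => ?_
      rw [← pow_mul, ← pow_add, add_comm]
    obtain ⟨m, hm, hbm⟩ := local_Zk hn hp hk1 (fun s hs => hreg s (tendsto_of_closure hk1 hs))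
      hφ hbφ hφ0
      ⟨hH1s.1, fun h hh => hH1s.2 h (hle hh)⟩
    refine ⟨p ^ i * m, Nat.mul_pos (pow_pos hp.pos i) hm, ?_⟩
    rw [pow_mul]
    exact hbm
  obtain ⟨m, hm, hx0m⟩ := hall hx0
  have hsub := spread_Zk (by omega) k hconn subset_rfl hall hx0 hx0m
  refine ⟨m, hm, fun x => ?_⟩
  have hcl : IsClosed {x : X | k ^ m • x = x} :=
    isClosed_eq (continuous_const_smul _) continuous_id
  have h3 := hcl.closure_subset_iff.2 (fun y hy => (hsub hy).self_of_nhds :
    RegA (BL n X) ⊆ {x : X | k ^ m • x = x})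
  rw [hdense.closure_eq] at h3
  exact h3 (mem_univ x)

omit [MeasurableSpace X] [BorelSpace X] in
/-- small elements of finite order are trivial -/
theorem no_torsion (hn : 2 ≤ n) (hdense : Dense (RegA (BL n X)))
    (hconn : IsPreconnected (RegA (BL n X))) {S : Type} [Group S] [TopologicalSpace S]
    [MulAction S X] [ContinuousSMul S X] {φ : OpenPartialHomeomorph X (E n)} (hφ : φ ∈ BL n X)
    {x0 : X} (hx0 : x0 ∈ φ.source) (hφ0 : φ x0 = 0) {H0 : Subgroup S}
    (hs : Small φ (H0 : Set S)) {q : S} (hq : q ∈ H0) {r : ℕ} (hr : r.Prime) (hqr : q ^ r = 1) :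
    ∀ x : X, q • x = x := by
  have hLA := locAct_of_small H0 hs
  have h1 := fixed_ball (by omega) hr hLA (g := ⟨q, hq⟩) (Subtype.ext hqr)
  have hb4 : ball (0 : E n) 1 ⊆ closedBall 0 4 :=
    ball_subset_closedBall.trans (closedBall_subset_closedBall (by norm_num))
  have h2 : x0 ∈ IF (fun z : X => q ^ 1 • z) := by
    refine mem_of_superset ((φ.isOpen_inter_preimage isOpen_ball).mem_nhds
      ⟨hx0, show φ x0 ∈ ball (0 : E n) 1 by rw [hφ0]; simp⟩) ?_
    rintro x ⟨hx, hx'⟩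
    have h3 : φ (q • φ.symm (φ x)) = φ x := h1 (φ x) hx'
    rw [φ.left_inv hx] at h3
    have h4 := (hs.2 q hq (φ x) (hb4 hx')).1
    rw [φ.left_inv hx] at h4
    show q ^ 1 • x = x
    rw [pow_one]
    exact φ.injOn h4 hx h3
  have hZ : RegA (BL n X) ⊆ Zk q := by
    intro x _
    refine ⟨r, hr.pos, Eventually.of_forall fun w => ?_⟩
    show q ^ r • w = w
    rw [hqr, one_smul]
  have hsub := spread_Zk (by omega) q hconn subset_rfl hZ ⟨φ, hφ, hx0⟩ h2
  intro x
  have hcl : IsClosed {x : X | q ^ 1 • x = x} :=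
    isClosed_eq (continuous_const_smul _) continuous_id
  have h3 := hcl.closure_subset_iff.2 (fun y hy => (hsub hy).self_of_nhds :
    RegA (BL n X) ⊆ {x : X | q ^ 1 • x = x})
  rw [hdense.closure_eq] at h3
  have h4 := h3 (mem_univ x)
  simpa using h4

/-- The Hilbert-Smith conjecture for homeomorphisms with thin exceptional sets. -/
theorem lie_thin (hn : 2 ≤ n) (hdense : Dense (RegA (BL n X)))
    (hconn : IsPreconnected (RegA (BL n X))) {G : Type} [Group G] [TopologicalSpace G]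
    [IsTopologicalGroup G] [LocallyCompactSpace G] [MulAction G X] [ContinuousSMul G X]
    [FaithfulSMul G X] {V : Set G} (hV : V ∈ 𝓝 (1 : G))
    (hreg : ∀ g : G, SmallPow V g →
      (∃ p : ℕ, p.Prime ∧ Tendsto (fun j : ℕ => g ^ p ^ j) atTop (𝓝 1)) → RegP (X := X) n g) :
    IsLie G := by
  have hT2 : T2Space G := by
    refine ⟨fun g h hgh => ?_⟩
    obtain ⟨x, hx⟩ : ∃ x : X, g • x ≠ h • x := by
      by_contra hall
      push Not at hall
      exact hgh (eq_of_smul_eq_smul hall)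
    obtain ⟨u, v, hu, hv, hgu, hhv, huv⟩ := t2_separation hx
    have hc : Continuous (fun g : G => g • x) := by fun_prop
    exact ⟨_, _, hu.preimage hc, hv.preimage hc, hgu, hhv, huv.preimage _⟩
  have hN : NSS G := by
    refine nss_of_Z V hV ?_
    intro S _ _ _ _ _ _ i hi hinj hiV
    let _ : MulAction S X := MulAction.compHom X i
    have hact : ∀ (s : S) (x : X), s • x = i s • x := fun _ _ => rfl
    have _ : ContinuousSMul S X := ⟨by
      have h : Continuous (fun q : S × X => i q.1 • q.2) := by fun_prop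
      exact h⟩
    have hfaith : ∀ s : S, (∀ x : X, s • x = x) → s = 1 := by
      intro s hs
      apply hinj
      refine eq_of_smul_eq_smul (α := X) fun x => ?_
      rw [map_one, one_smul]
      exact hs x
    have hregS : ∀ p : ℕ, p.Prime → ∀ s : S, Tendsto (fun j : ℕ => s ^ p ^ j) atTop (𝓝 1) →
        RegP (X := X) n s := by
      intro p hp s hs
      have hs' : Tendsto (fun j : ℕ => (i s) ^ p ^ j) atTop (𝓝 1) := by
        have h1 := (hi.tendsto 1).comp hs
        simpa [Function.comp_def] using h1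
      obtain ⟨D, hD, hDx⟩ := hreg (i s) (smallPow_of_hom i hi hiV s) ⟨p, hp, hs'⟩
      refine ⟨D, hD, fun x hx hxD => ?_⟩
      simp only [hact, map_pow]
      exact hDx x hx hxD
    rcases isEmpty_or_nonempty X with hX | hX
    · have : Subsingleton S := ⟨fun a b => by
        rw [hfaith a fun x => (hX.false x).elim, hfaith b fun x => (hX.false x).elim]⟩
      infer_instance
    obtain ⟨x0, hx0⟩ := hdense.nonempty
    obtain ⟨φ, hφ, hx0φ, hφ0, H0, hH0o, hH0s⟩ := start' (stable_BL n X) (H := S) hx0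
    have htor : ∀ q ∈ H0, ∀ r : ℕ, r.Prime → q ^ r = 1 → q = 1 := fun q hq r hr hqr =>
      hfaith q (no_torsion hn hdense hconn hφ hx0φ hφ0 hH0s hq hr hqr)
    have hH0c : IsClosed (H0 : Set S) := Subgroup.isClosed_of_isOpen H0 hH0o
    have : CompactSpace H0 := isCompact_iff_compactSpace.1 hH0c.isCompact
    have hbt : (⊥ : Subgroup H0) = ⊤ := by
      refine Pool.Agent.Y215.HS.syl H0 _ (by rw [Subgroup.coe_bot]; exact isClosed_singleton) ?_
      intro p hp P hPc hPp k hk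
      have : CompactSpace P := isCompact_iff_compactSpace.1 hPc.isCompact
      have h1 : Tendsto (fun j : ℕ => (⟨k, hk⟩ : P) ^ p ^ j) atTop (𝓝 1) :=
        Pool.Agent.Y340.SP.t_POW p hp P hPp ⟨k, hk⟩
      have hc : Continuous (fun q : P => ((q : H0) : S)) :=
        continuous_subtype_val.comp continuous_subtype_val
      have h2 : Tendsto (fun j : ℕ => (k : S) ^ p ^ j) atTop (𝓝 1) := by
        have h3 := (hc.tendsto 1).comp h1
        simpa [Function.comp_def] using h3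
      obtain ⟨m, hm, hkm⟩ := pow_trivial hn hdense hconn hp h2 (hregS p hp)
      have hkm1 : (k : S) ^ m = 1 := hfaith _ hkm
      rw [Subgroup.mem_bot]
      by_contra hne
      have hfin : IsOfFinOrder (k : S) := isOfFinOrder_iff_pow_eq_one.2 ⟨m, hm, hkm1⟩
      have hne' : (k : S) ≠ 1 := fun h => hne (Subtype.ext h)
      have ho : orderOf (k : S) ≠ 1 := fun h => hne' (orderOf_eq_one_iff.1 h)
      have hr := Nat.minFac_prime ho
      obtain ⟨c, hcd⟩ := Nat.minFac_dvd (orderOf (k : S))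
      have hc0 : 0 < c := by
        rcases Nat.eq_zero_or_pos c with h0 | h0
        · rw [h0, mul_zero] at hcd
          exact absurd hcd hfin.orderOf_pos.ne'
        · exact h0
      have hq1 : (k : S) ^ c = 1 := by
        refine htor _ (Subgroup.pow_mem _ k.2 _) _ hr ?_
        rw [← pow_mul, mul_comm, ← hcd, pow_orderOf_eq_one]
      have hle := Nat.le_of_dvd hc0 (orderOf_dvd_of_pow_eq_one hq1)
      have hlt : c < orderOf (k : S) := by
        calc c = 1 * c := (one_mul _).symm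
          _ < (orderOf (k : S)).minFac * c := Nat.mul_lt_mul_of_pos_right hr.one_lt hc0
          _ = orderOf (k : S) := hcd.symm
      omega
    have hbot : H0 = ⊥ := by
      rw [eq_bot_iff]
      intro s hs
      have h1 : (⟨s, hs⟩ : H0) ∈ (⊥ : Subgroup H0) := by rw [hbt]; exact Subgroup.mem_top _
      rw [Subgroup.mem_bot] at h1 ⊢
      exact congrArg Subtype.val h1
    rw [hbot, Subgroup.coe_bot] at hH0o
    exact discreteTopology_of_isOpen_singleton_one hH0o
  obtain ⟨E, i1, i2, i3, ⟨C⟩⟩ := Pool.Agent.Y328.HS.lga G hN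
  let _ := i1
  let _ := i2
  have _ := i3
  exact Pool.Agent.Y286.HS.lgb G E C

end

end Pool.Agent.K1H61.NW
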