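import Pool.Agent.K1H61.NW.Ball
import Pool.Agent.R775.HS.Glob

/-!
# Newman's theorem for maps of finite order, without regularity
-/

set_option autoImplicit false

open MeasureTheory Set Metric Filter Topology

namespace Pool.Agent.K1H61.NW

open Pool.Agent.Y485.HS Pool.Agent.Y489.SP Pool.Agent.R775.HS

section
variable {n p : ℕ} {X : Type} [TopologicalSpace X]

/-- the points near which the map is the identity -/
def IF (τ : X → X) : Set X := {z | ∀ᶠ w in 𝓝 z, τ w = w}

theorem isOpen_IF (τ : X → X) : IsOpen (IF τ) := by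
  rw [isOpen_iff_mem_nhds]
  intro x hx
  exact eventually_eventually_nhds.2 hx

omit [TopologicalSpace X] in
theorem iter_mod {τ : X → X} {N : Set X} (hp : ∀ z ∈ N, τ^[p] z = z)
    {z : X} (hz : z ∈ N) (k : ℕ) : τ^[k] z = τ^[k % p] z := by
  have h1 : ∀ j : ℕ, ∀ i : ℕ, τ^[i + p * j] z = τ^[i] z := by
    intro j
    induction j with
    | zero => intro i; simp
    | succ j ih =>
      intro i
      have h2 : i + p * (j + 1) = (i + p * j) + p := by ring
      rw [h2, Function.iterate_add_apply, hp z hz, ih i]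
  have h3 := h1 (k / p) (k % p)
  rw [Nat.mod_add_div] at h3
  exact h3

/-- Newman's theorem for a map of prime order -/
theorem newman_map [T2Space X] (hn : 1 ≤ n) (hp : p.Prime) (φ : OpenPartialHomeomorph X (E n))
    {N : Set X} (hN : IsOpen N) {τ : X → X} (hc : ContinuousOn τ N) (hm : MapsTo τ N N)
    (hτ : ∀ z ∈ N, τ^[p] z = z) {x0 : X} (hx0 : x0 ∈ N) (hxφ : x0 ∈ φ.source)
    (hcl : x0 ∈ closure (IF τ)) : x0 ∈ IF τ := by
  classical
  by_contra hcon
  have : NeZero p := ⟨hp.ne_zero⟩
  have hit : ∀ k : ℕ, ContinuousOn (τ^[k]) N := fun k => hc.iterate (fun z hz => hm hz) k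
  -- `x0` is fixed
  have hfix : τ x0 = x0 := by
    by_contra hne
    have h1 : ContinuousAt τ x0 := hc.continuousAt (hN.mem_nhds hx0)
    obtain ⟨u, v, hu, hv, hxu, hxv, huv⟩ := t2_separation hne
    have h2 : ∀ᶠ z in 𝓝 x0, τ z ∈ u ∧ z ∈ v :=
      (h1.eventually_mem (hu.mem_nhds hxu)).and (hv.mem_nhds hxv)
    obtain ⟨z, ⟨hz1, hz2⟩, hz3⟩ := mem_closure_iff_nhds.1 hcl _ h2
    have hz4 : τ z = z := hz3.self_of_nhds
    rw [hz4] at hz1
    exact (Set.disjoint_left.1 huv) hz1 hz2
  have hfixk : ∀ k : ℕ, τ^[k] x0 = x0 := fun k => Function.iterate_fixed hfix k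
  set z : E n := φ x0 with hz
  have hzt : z ∈ φ.target := φ.map_source hxφ
  have hev : ∀ᶠ y in 𝓝 z, y ∈ φ.target ∧ φ.symm y ∈ N ∧
      ∀ k ∈ Finset.range p, τ^[k] (φ.symm y) ∈ φ.source := by
    have h0 : Tendsto φ.symm (𝓝 z) (𝓝 x0) := by
      have h1 := φ.continuousAt_symm hzt
      rw [ContinuousAt, hz, φ.left_inv hxφ] at h1
      exact h1
    refine (φ.open_target.mem_nhds hzt |> fun h => (show ∀ᶠ y in 𝓝 z, y ∈ φ.target from h)).and
      ((h0.eventually (hN.mem_nhds hx0)).and ?_)
    rw [Filter.eventually_all_finset]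
    intro k _
    have h1 : ContinuousAt (τ^[k]) x0 := (hit k).continuousAt (hN.mem_nhds hx0)
    have h2 : ∀ᶠ w in 𝓝 x0, τ^[k] w ∈ φ.source :=
      h1.eventually_mem (by rw [hfixk k]; exact φ.open_source.mem_nhds hxφ)
    exact h0.eventually h2
  obtain ⟨ρ, hρ, hρG⟩ := (nhds_basis_closedBall.mem_iff).1 hev
  have hG1 : ∀ y ∈ closedBall z ρ, y ∈ φ.target := fun y hy => (hρG hy).1
  have hG2 : ∀ y ∈ closedBall z ρ, φ.symm y ∈ N := fun y hy => (hρG hy).2.1
  have hG3 : ∀ y ∈ closedBall z ρ, ∀ k, k < p → τ^[k] (φ.symm y) ∈ φ.source := fun y hy k hk =>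
    (hρG hy).2.2 k (Finset.mem_range.2 hk)
  -- the local action
  let P : Type := Multiplicative (ZMod p)
  let _ : TopologicalSpace P := ⊥
  have _ : DiscreteTopology P := ⟨rfl⟩
  let T0 : P → E n → E n := fun k y => φ (τ^[(Multiplicative.toAdd k).val] (φ.symm y))
  have hval : ∀ k : P, (Multiplicative.toAdd k).val < p := fun k => ZMod.val_lt _
  have hT0k : ∀ k : P, ContinuousOn (T0 k) (closedBall z ρ) := by
    intro k
    refine φ.continuousOn.comp ((hit _).comp (φ.continuousOn_symm.mono hG1) hG2) ?_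
    intro y hy
    exact hG3 y hy _ (hval k)
  have hT0c : ContinuousOn (fun q : P × E n => T0 q.1 q.2) (univ ×ˢ closedBall z ρ) := by
    rw [continuousOn_prod_of_discrete_left]
    intro k
    refine (hT0k k).mono fun y hy => ?_
    exact hy.2
  have hT01 : ∀ y ∈ closedBall z ρ, T0 1 y = y := by
    intro y hy
    show φ (τ^[(Multiplicative.toAdd (1 : Multiplicative (ZMod p))).val] (φ.symm y)) = y
    rw [toAdd_one, ZMod.val_zero, Function.iterate_zero, id, φ.right_inv (hG1 y hy)]
  have hT0m : ∀ h k, ∀ y ∈ closedBall z ρ, T0 k y ∈ closedBall z ρ →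
      T0 (h * k) y = T0 h (T0 k y) := by
    intro h k y hy _
    show φ (τ^[(Multiplicative.toAdd (h * k : Multiplicative (ZMod p))).val] (φ.symm y)) =
      φ (τ^[(Multiplicative.toAdd h).val] (φ.symm (φ (τ^[(Multiplicative.toAdd k).val] (φ.symm y)))))
    rw [φ.left_inv (hG3 y hy _ (hval k)), toAdd_mul, ZMod.val_add, ← Function.iterate_add_apply,
      ← iter_mod hτ (hG2 y hy)]
  -- the points
  have hV : (φ.source ∩ φ ⁻¹' ball z ρ) ∈ 𝓝 x0 :=
    (φ.isOpen_inter_preimage isOpen_ball).mem_nhds ⟨hxφ, mem_ball_self hρ⟩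
  obtain ⟨a, haV, ha⟩ := mem_closure_iff_nhds.1 hcl _ hV
  obtain ⟨x1, hx1V, hx1⟩ : ∃ x1 ∈ φ.source ∩ φ ⁻¹' ball z ρ, τ x1 ≠ x1 := by
    by_contra h
    push Not at h
    exact hcon (mem_of_superset hV fun x hx => h x hx)
  have ha' : ∀ᶠ y in 𝓝 (φ a), ∀ k, T0 k y = y := by
    have h1 : Tendsto φ.symm (𝓝 (φ a)) (𝓝 a) := by
      have := φ.continuousAt_symm (φ.map_source haV.1)
      rw [ContinuousAt, φ.left_inv haV.1] at this
      exact this
    filter_upwards [φ.open_target.mem_nhds (φ.map_source haV.1), h1.eventually ha] with y hy h2 k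
    show φ (τ^[(Multiplicative.toAdd k).val] (φ.symm y)) = y
    rw [Function.iterate_fixed h2, φ.right_inv hy]
  have hx1' : ∃ k, T0 k (φ x1) ≠ φ x1 := by
    refine ⟨(Multiplicative.ofAdd (1 : ZMod p) : Multiplicative (ZMod p)), ?_⟩
    show φ (τ^[(1 : ZMod p).val] (φ.symm (φ x1))) ≠ φ x1
    have : Fact (1 < p) := ⟨hp.one_lt⟩
    rw [ZMod.val_one, Function.iterate_one, φ.left_inv hx1V.1]
    intro h
    have h2 := hG3 (φ x1) (ball_subset_closedBall hx1V.2) 1 hp.one_lt
    rw [Function.iterate_one, φ.left_inv hx1V.1] at h2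
    exact hx1 (φ.injOn h2 hx1V.1 h)
  obtain ⟨w, O, Φ, L', ⟨kw, hkw⟩, hwO, hOρ, hOo, hΦO, hΦL, hΦw, hΦB, hΦs⟩ :=
    Pool.Agent.Y665.HS.coord n hn P T0 z ρ hρ hT0c hT01 hT0m (φ a) haV.2 (φ x1) hx1V.2 ha' hx1'
  have hOb : ∀ y ∈ O, y ∈ closedBall z ρ := fun y hy => ball_subset_closedBall (hOρ hy)
  obtain ⟨e, he1, he2, he3⟩ := exists_oph hOo hΦO hΦL
  have hes : ∀ v ∈ closedBall (0 : E n) 4, e.symm v ∈ O ∧ Φ (e.symm v) = v := by
    intro v hv
    have h1 : v ∈ e.target := by rw [he2]; exact hΦB hv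
    have h2 : e.symm v ∈ O := by rw [← he1]; exact e.map_target h1
    exact ⟨h2, by rw [← he3 _ h2]; exact e.right_inv h1⟩
  let T1 : P → E n → E n := fun k v => e (T0 k (e.symm v))
  have hT1O : ∀ k : P, ∀ v ∈ closedBall (0 : E n) 4, T0 k (e.symm v) ∈ O ∧
      dist (e (T0 k (e.symm v))) v ≤ 1 / 4 := by
    intro k v hv
    obtain ⟨hu, huv⟩ := hes v hv
    have h1 := hΦs (e.symm v) hu (by rw [huv]; exact hv) k
    rw [huv] at h1
    refine ⟨h1.1, ?_⟩
    rw [he3 _ h1.1]
    exact h1.2
  have hLA : LocAct n P T1 := by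
    refine ⟨?_, ?_, ?_, ?_⟩
    · rw [continuousOn_prod_of_discrete_left]
      intro k
      have h1 : ContinuousOn (T1 k) (closedBall (0 : E n) 4) := by
        refine e.continuousOn.comp ((hT0k k).comp (e.continuousOn_symm.mono ?_) ?_) ?_
        · intro v hv
          rw [he2]
          exact hΦB hv
        · intro v hv
          exact hOb _ (hes v hv).1
        · intro v hv
          rw [he1]
          exact (hT1O k v hv).1
      exact h1.mono fun v hv => hv.2
    · intro v hv
      obtain ⟨hu, huv⟩ := hes v hv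
      show e (T0 1 (e.symm v)) = v
      rw [hT01 _ (hOb _ hu), he3 _ hu, huv]
    · intro h k v hv _
      obtain ⟨hu, huv⟩ := hes v hv
      have h1 := (hT1O k v hv).1
      show e (T0 (h * k) (e.symm v)) = e (T0 h (e.symm (e (T0 k (e.symm v)))))
      rw [e.left_inv (by rw [he1]; exact h1), hT0m h k _ (hOb _ hu) (hOb _ h1)]
    · intro k v hv
      exact (hT1O k v hv).2
  have hkp : kw ^ p = 1 := by
    have h1 : Multiplicative.toAdd ((kw : Multiplicative (ZMod p)) ^ p) = 0 := by
      rw [toAdd_pow, nsmul_eq_mul, ZMod.natCast_self, zero_mul]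
    exact h1
  have hfin := fixed_ball hn hp hLA hkp 0 (by simp)
  have hw0 : e.symm 0 = w := by
    have h1 : e w = 0 := by rw [he3 w hwO, hΦw]
    rw [← h1]
    exact e.left_inv (by rw [he1]; exact hwO)
  apply hkw
  have h1 : e (T0 kw w) = e w := by
    rw [he3 w hwO, hΦw]
    have h2 : e (T0 kw (e.symm 0)) = 0 := hfin
    rwa [hw0] at h2
  refine e.injOn ?_ (by rw [he1]; exact hwO) h1
  rw [he1]
  have h2 := (hT1O kw 0 (by simp)).1
  rwa [hw0] at h2

omit [TopologicalSpace X] in
theorem smul_iter {H : Type} [Group H] [MulAction H X] (h : H) (k : ℕ) (x : X) :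
    (fun z : X => h • z)^[k] x = h ^ k • x := by
  induction k generalizing x with
  | zero => simp
  | succ k ih => rw [Function.iterate_succ_apply, ih, pow_succ, mul_smul]

theorem IF_subset_pow {H : Type} [Group H] [MulAction H X] (h : H) (k : ℕ) :
    IF (fun z : X => h • z) ⊆ IF (fun z : X => h ^ k • z) := by
  intro x hx
  filter_upwards [hx] with w hw
  show h ^ k • w = w
  rw [← smul_iter, Function.iterate_fixed hw]

/-- a point of the closure of the points near which the element is trivial is fixed -/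
theorem fix_of_closure [T2Space X] {H : Type} [Group H] [TopologicalSpace H] [MulAction H X]
    [ContinuousSMul H X] (h : H) {x : X} (hx : x ∈ closure (IF (fun z : X => h • z))) :
    h • x = x := by
  have h1 : IsClosed {z : X | h • z = z} := isClosed_eq (continuous_const_smul h) continuous_id
  exact closure_minimal (fun z hz => hz.self_of_nhds) h1 hx

/-- Newman's theorem for an element of finite order near the point -/
theorem newman_fin [T2Space X] (hn : 1 ≤ n) {H : Type} [Group H] [TopologicalSpace H]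
    [MulAction H X] [ContinuousSMul H X] (φ : OpenPartialHomeomorph X (E n)) {x : X}
    (hxφ : x ∈ φ.source) : ∀ (m : ℕ), 0 < m → ∀ h : H, x ∈ IF (fun z : X => h ^ m • z) →
      x ∈ closure (IF (fun z : X => h • z)) → x ∈ IF (fun z : X => h • z) := by
  intro m
  induction m using Nat.strong_induction_on with
  | _ m ih =>
    intro hm h hx hcl
    rcases Nat.lt_or_ge 1 m with hm1 | hm1
    · have hp : (m.minFac).Prime := Nat.minFac_prime (by omega)
      obtain ⟨m', hm'⟩ := Nat.minFac_dvd m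
      have hm'0 : 0 < m' := by
        rcases Nat.eq_zero_or_pos m' with h0 | h0
        · rw [h0, mul_zero] at hm'
          omega
        · exact h0
      have hm'1 : m' < m := by
        calc m' = 1 * m' := (one_mul _).symm
          _ < m.minFac * m' := Nat.mul_lt_mul_of_pos_right hp.one_lt hm'0
          _ = m := hm'.symm
      refine ih m' hm'1 hm'0 h ?_ hcl
      obtain ⟨q, hq⟩ : ∃ q : H, q = h ^ m' := ⟨_, rfl⟩
      have hqp : x ∈ IF (fun z : X => q ^ m.minFac • z) := by
        have h1 : q ^ m.minFac = h ^ m := by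
          rw [hq, ← pow_mul, mul_comm, ← hm']
        rw [h1]
        exact hx
      have hqcl : x ∈ closure (IF (fun z : X => q • z)) := by
        rw [hq]
        exact closure_mono (IF_subset_pow h m') hcl
      rw [← hq]
      -- the prime case
      obtain ⟨N0, hN0, hN0o, hxN0⟩ := _root_.eventually_nhds_iff.1
        (show ∀ᶠ w in 𝓝 x, q ^ m.minFac • w = w from hqp)
      have hqx : q • x = x := fix_of_closure q hqcl
      have hqkx : ∀ k : ℕ, q ^ k • x = x := fun k => by
        rw [← smul_iter, Function.iterate_fixed hqx]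
      let N : Set X := ⋂ k ∈ Finset.range m.minFac, {z : X | q ^ k • z ∈ N0}
      have hNo : IsOpen N := by
        refine isOpen_biInter_finset fun k _ => ?_
        exact hN0o.preimage (continuous_const_smul (q ^ k))
      have hmemN : ∀ z : X, z ∈ N ↔ ∀ k, k < m.minFac → q ^ k • z ∈ N0 := by
        intro z
        simp only [N, mem_iInter, Finset.mem_range, mem_ofPred_eq]
      have hN0z : ∀ z ∈ N, z ∈ N0 := by
        intro z hz
        have h1 := (hmemN z).1 hz 0 hp.pos
        rwa [pow_zero, one_smul] at h1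
      refine newman_map hn hp φ hNo (τ := fun z : X => q • z)
        (continuous_const_smul q).continuousOn ?_ ?_ ?_ hxφ hqcl
      · intro z hz
        rw [hmemN]
        intro k hk
        show q ^ k • q • z ∈ N0
        rw [← mul_smul, ← pow_succ]
        rcases Nat.lt_or_ge (k + 1) m.minFac with h1 | h1
        · exact (hmemN z).1 hz _ h1
        · have h2 : k + 1 = m.minFac := by omega
          rw [h2, hN0 z (hN0z z hz)]
          exact hN0z z hz
      · intro z hz
        rw [smul_iter]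
        exact hN0 z (hN0z z hz)
      · rw [hmemN]
        intro k _
        rw [hqkx]
        exact hxN0
    · have h1 : m = 1 := by omega
      rw [h1] at hx
      simpa using hx

/-- the points near which some power is trivial -/
def Zk {H : Type} [Group H] [MulAction H X] (k : H) : Set X :=
  {x | ∃ m : ℕ, 0 < m ∧ x ∈ IF (fun z : X => k ^ m • z)}

theorem isOpen_Zk {H : Type} [Group H] [MulAction H X] (k : H) : IsOpen (Zk k : Set X) := by
  have h1 : (Zk k : Set X) = ⋃ m : {m : ℕ // 0 < m}, IF (fun z : X => k ^ (m : ℕ) • z) := by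
    ext x
    simp [Zk]
  rw [h1]
  exact isOpen_iUnion fun m => isOpen_IF _

/-- a power which is trivial near a point of a connected set of regular points near which some
powers are trivial is trivial near all points of the set -/
theorem spread_Zk [T2Space X] (hn : 1 ≤ n) {A : Set (OpenPartialHomeomorph X (E n))}
    {H : Type} [Group H] [TopologicalSpace H]
    [MulAction H X] [ContinuousSMul H X] (k : H) {O : Set X} (hO : IsPreconnected O)
    (hOA : O ⊆ RegA A) (hOZ : O ⊆ Zk k) {m : ℕ} {x1 : X} (hx1 : x1 ∈ O)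
    (hx1m : x1 ∈ IF (fun z : X => k ^ m • z)) : O ⊆ IF (fun z : X => k ^ m • z) := by
  refine hO.subset_of_closure_inter_subset (isOpen_IF _) ⟨x1, hx1, hx1m⟩ ?_
  rintro x ⟨hxc, hxO⟩
  obtain ⟨φ, -, hxφ⟩ := hOA hxO
  obtain ⟨j, hj, hxj⟩ := hOZ hxO
  refine newman_fin hn φ hxφ j hj (k ^ m) ?_ hxc
  have h1 : (k ^ m) ^ j = (k ^ j) ^ m := by rw [← pow_mul, ← pow_mul, mul_comm]
  rw [h1]
  exact IF_subset_pow (k ^ j) m hxj

end

end Pool.Agent.K1H61.NW
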