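import Pool.Agent.K1H61.NW.Main

/-!
# Examples of exceptional sets
-/

set_option autoImplicit false

open MeasureTheory Set Metric Filter Topology Module
open scoped ENNReal NNReal

namespace Pool.Agent.K1H61.NW

open Pool.Agent.Y485.HS Pool.Agent.Y489.SP Pool.Agent.R775.HS Pool.Agent.R775.HC

theorem haus_null {n : ℕ} {A : Set (E n)}
    (hA : Measure.hausdorffMeasure ((n : ℝ) - 1) A = 0) : volume A = 0 := by
  obtain ⟨c, hc⟩ := Pool.Agent.Y858.HS.vol_haus n
  have h1 : Measure.hausdorffMeasure (n : ℝ) A = 0 :=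
    le_antisymm ((Measure.hausdorffMeasure_mono (by linarith) A).trans hA.le) bot_le
  rw [hc, h1, mul_zero]

/-- a null set of codimension one does not separate a ball -/
theorem ball_sdiff {n : ℕ} (hn : 1 ≤ n) {A : Set (E n)}
    (hA : Measure.hausdorffMeasure ((n : ℝ) - 1) A = 0) {c : E n} {R : ℝ}
    (hO : IsOpen (ball c R \ A)) : IsPreconnected (ball c R \ A) := by
  refine isPreconnected_of_forall_pair fun a ha b hb => ?_
  obtain ⟨δ, hδ, hδa, hδb⟩ : ∃ δ : ℝ, 0 < δ ∧ ball a δ ⊆ ball c R \ A ∧ ball b δ ⊆ ball c R \ A := by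
    obtain ⟨δ1, h1, h2⟩ := Metric.isOpen_iff.1 hO a ha
    obtain ⟨δ2, h3, h4⟩ := Metric.isOpen_iff.1 hO b hb
    exact ⟨min δ1 δ2, lt_min h1 h3, (ball_subset_ball (min_le_left _ _)).trans h2,
      (ball_subset_ball (min_le_right _ _)).trans h4⟩
  by_cases hab : b - a = 0
  · have : a = b := (sub_eq_zero.1 hab).symm
    subst this
    exact ⟨{a}, by simpa using ha, rfl, rfl, isPreconnected_singleton⟩
  obtain ⟨u, hu⟩ : ∃ u, u = b - a := ⟨_, rfl⟩
  rw [← hu] at hab
  -- the projection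
  obtain ⟨w, hw, hwA⟩ : ∃ w : E n, ‖w‖ < δ ∧ ∀ t ∈ Icc (0 : ℝ) 1, a + w + t • u ∉ A := by
    by_contra hno
    push Not at hno
    let V : Submodule ℝ (E n) := (Submodule.span ℝ {u})ᗮ
    have hfr : (finrank ℝ V : ℝ) = (n : ℝ) - 1 := by
      have h1 := (Submodule.span ℝ {u}).finrank_add_finrank_orthogonal
      rw [finrank_span_singleton hab, finrank_euclideanSpace_fin] at h1
      have h2 : finrank ℝ V = n - 1 := by
        show finrank ℝ ((Submodule.span ℝ {u})ᗮ : Submodule ℝ (E n)) = n - 1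
        omega
      rw [h2, Nat.cast_sub hn, Nat.cast_one]
    let π : E n →L[ℝ] V := V.orthogonalProjectionOnto
    have hπu : π u = 0 := by
      refine Submodule.orthogonalProjectionOnto_apply_of_mem_orthogonal ?_
      refine Submodule.le_orthogonal_orthogonal _ ?_
      exact Submodule.mem_span_singleton_self u
    have hπl : LipschitzWith 1 π := by
      refine LipschitzWith.of_dist_le_mul fun x y => ?_
      rw [dist_eq_norm, dist_eq_norm, ← map_sub, NNReal.coe_one, one_mul]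
      have h1 := π.le_opNorm (x - y)
      have h2 : ‖π‖ ≤ 1 := Submodule.orthogonalProjectionOnto_norm_le _
      calc ‖π (x - y)‖ ≤ ‖π‖ * ‖x - y‖ := h1
        _ ≤ 1 * ‖x - y‖ := by gcongr
        _ = ‖x - y‖ := one_mul _
    have hsub : ball (π a) δ ⊆ π '' A := by
      intro v hv
      obtain ⟨w, hw⟩ : ∃ w : E n, w = ((v - π a : V) : E n) := ⟨_, rfl⟩
      have hwn : ‖w‖ < δ := by
        rw [hw, ← Submodule.coe_norm, ← dist_eq_norm]
        exact hv
      obtain ⟨t, -, ht⟩ := hno w hwn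
      refine ⟨_, ht, ?_⟩
      rw [map_add, map_add, map_smul, hπu, smul_zero, add_zero]
      have h1 : π w = v - π a := by
        rw [hw]
        exact Submodule.orthogonalProjectionOnto_mem_subspace_eq_self _
      rw [h1]
      abel
    have h1 : Measure.hausdorffMeasure (finrank ℝ V : ℝ) (π '' A) = 0 := by
      have h2 := hπl.hausdorffMeasure_image_le (d := (finrank ℝ V : ℝ)) (by positivity) A
      rw [hfr, hA, mul_zero] at h2
      rw [hfr]
      exact le_antisymm h2 bot_le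
    have h3 : 0 < Measure.hausdorffMeasure (finrank ℝ V : ℝ) (ball (π a) δ) :=
      measure_ball_pos _ _ hδ
    exact absurd (measure_mono (μ := Measure.hausdorffMeasure (finrank ℝ V : ℝ)) hsub)
      (by rw [h1]; exact not_le.2 h3)
  -- the connected set
  have haw : a + w ∈ ball a δ := by
    rw [mem_ball, dist_eq_norm, add_sub_cancel_left]
    exact hw
  have hbw : b + w ∈ ball b δ := by
    rw [mem_ball, dist_eq_norm, add_sub_cancel_left]
    exact hw
  have hseg : ∀ z ∈ segment ℝ (a + w) (b + w), ∃ t ∈ Icc (0 : ℝ) 1, z = a + w + t • u := by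
    intro z hz
    rw [segment_eq_image'] at hz
    obtain ⟨t, ht, rfl⟩ := hz
    refine ⟨t, ht, ?_⟩
    rw [hu]
    simp only
    congr 2
    abel
  have hp1 : IsPreconnected (ball a δ ∪ segment ℝ (a + w) (b + w)) :=
    IsPreconnected.union (a + w) haw (left_mem_segment ℝ _ _) (convex_ball a δ).isPreconnected
      (convex_segment _ _).isPreconnected
  have hp2 : IsPreconnected ((ball a δ ∪ segment ℝ (a + w) (b + w)) ∪ ball b δ) :=
    IsPreconnected.union (b + w) (Or.inr (right_mem_segment ℝ _ _)) hbw hp1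
      (convex_ball b δ).isPreconnected
  refine ⟨_, ?_, Or.inl (Or.inl (mem_ball_self hδ)), Or.inr (mem_ball_self hδ), hp2⟩
  rintro z ((hz | hz) | hz)
  · exact hδa hz
  · refine ⟨(convex_ball c R).segment_subset (hδa haw).1 (hδb hbw).1 hz, ?_⟩
    obtain ⟨t, ht, rfl⟩ := hseg z hz
    exact hwA t ht
  · exact hδb hz

section
variable {n : ℕ} {X : Type} [MetricSpace X]

/-- a small ball in a chart -/
theorem exists_chart_ball (φ : OpenPartialHomeomorph X (E n)) {x : X} (hx : x ∈ φ.source)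
    {W : Set X} (hW : W ∈ 𝓝 x) : ∃ R : ℝ, 0 < R ∧ ball (φ x) R ⊆ φ.target ∧
      φ.symm '' ball (φ x) R ⊆ W ∧ φ.symm '' ball (φ x) R ∈ 𝓝 x := by
  have ht : φ x ∈ φ.target := φ.map_source hx
  have hev : ∀ᶠ v in 𝓝 (φ x), v ∈ φ.target ∧ φ.symm v ∈ W := by
    have h1 := φ.continuousAt_symm ht
    rw [ContinuousAt, φ.left_inv hx] at h1
    exact (show ∀ᶠ v in 𝓝 (φ x), v ∈ φ.target from φ.open_target.mem_nhds ht).and
      (h1.eventually (show ∀ᶠ z in 𝓝 x, z ∈ W from hW))
  obtain ⟨R, hR, hball⟩ := Metric.eventually_nhds_iff_ball.1 hev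
  refine ⟨R, hR, fun v hv => (hball v hv).1, ?_, ?_⟩
  · rintro _ ⟨v, hv, rfl⟩
    exact (hball v hv).2
  · refine mem_of_superset ((φ.isOpen_inter_preimage isOpen_ball).mem_nhds
      ⟨hx, mem_ball_self hR⟩) ?_
    rintro z ⟨hz, hz'⟩
    exact ⟨φ z, hz', φ.left_inv hz⟩

/-- from the chart to the space -/
theorem acc_of_chart (φ : OpenPartialHomeomorph X (E n)) {c : E n} {R : ℝ}
    (hR : ball c R ⊆ φ.target) {D W : Set X} (hW : φ.symm '' ball c R ⊆ W) {C : Set (E n)}
    (hC : IsPreconnected C) (hCs : C ⊆ ball c R \ {v | φ.symm v ∈ D}) {v : E n}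
    (hv : v ∈ ball c R) (hvC : v ∈ closure C) :
    ∃ C : Set X, IsPreconnected C ∧ C ⊆ W \ D ∧ φ.symm v ∈ closure C := by
  refine ⟨φ.symm '' C, hC.image _ (φ.continuousOn_symm.mono fun v hv => hR (hCs hv).1), ?_,
    mem_closure_image (φ.continuousAt_symm (hR hv)) hvC⟩
  rintro _ ⟨w, hw, rfl⟩
  exact ⟨hW ⟨w, (hCs hw).1, rfl⟩, (hCs hw).2⟩

/-- closed sets of measure zero in codimension one -/
theorem acc_null (hn : 1 ≤ n) [MeasurableSpace X] [BorelSpace X] {D : Set X} (hD : IsClosed D)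
    (hD0 : Measure.hausdorffMeasure ((n : ℝ) - 1) D = 0) : Acc n D := by
  intro x hx W hW
  obtain ⟨φ, ⟨L, hL⟩, hxφ⟩ := hx
  obtain ⟨R, hR, hRt, hRW, hRn⟩ := exists_chart_ball φ hxφ hW
  -- the image is a null set
  have hlip : LipschitzOnWith L.toNNReal φ (D ∩ φ.source) :=
    LipschitzOnWith.of_dist_le_mul fun a ha b hb =>
      ((hL a ha.2 b hb.2).1).trans (mul_le_mul_of_nonneg_right (Real.le_coe_toNNReal L) dist_nonneg)
  have hn1 : (0 : ℝ) ≤ (n : ℝ) - 1 := by
    have : (1 : ℝ) ≤ n := by exact_mod_cast hn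
    linarith
  have hnull : Measure.hausdorffMeasure ((n : ℝ) - 1) (ball (φ x) R ∩ {v | φ.symm v ∈ D}) = 0 := by
    have h1 : ball (φ x) R ∩ {v | φ.symm v ∈ D} ⊆ φ '' (D ∩ φ.source) := by
      rintro v ⟨hv, hvD⟩
      exact ⟨φ.symm v, ⟨hvD, φ.map_target (hRt hv)⟩, φ.right_inv (hRt hv)⟩
    have h2 := hlip.hausdorffMeasure_image_le hn1
    have h3 : Measure.hausdorffMeasure ((n : ℝ) - 1) (D ∩ φ.source) = 0 :=
      measure_mono_null inter_subset_left hD0
    rw [h3, mul_zero] at h2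
    exact measure_mono_null h1 (le_antisymm h2 bot_le)
  have hO : IsOpen (ball (φ x) R \ {v | φ.symm v ∈ D}) := by
    have h1 := (φ.continuousOn_symm.mono hRt).isOpen_inter_preimage isOpen_ball hD.isOpen_compl
    exact h1
  have hO' : IsOpen (ball (φ x) R \ (ball (φ x) R ∩ {v | φ.symm v ∈ D})) := by
    rwa [sdiff_self_inter]
  have hpre := ball_sdiff hn hnull hO'
  rw [sdiff_self_inter] at hpre
  have hacc := fun hcl => acc_of_chart φ hRt hRW hpre subset_rfl (mem_ball_self hR) hcl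
  rw [φ.left_inv hxφ] at hacc
  apply hacc
  have hv : φ x ∈ ball (φ x) R := mem_ball_self hR
  rw [_root_.mem_closure_iff]
  intro O hOo hvO
  by_contra hno
  have h1 : O ∩ ball (φ x) R ⊆ ball (φ x) R ∩ {v | φ.symm v ∈ D} := by
    rintro z ⟨hz1, hz2⟩
    refine ⟨hz2, ?_⟩
    by_contra h
    exact hno ⟨z, hz1, hz2, h⟩
  have h2 : 0 < volume (O ∩ ball (φ x) R) :=
    (hOo.inter isOpen_ball).measure_pos _ ⟨φ x, hvO, hv⟩
  have h3 := measure_mono_null h1 (haus_null hnull)
  exact h2.ne' h3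

/-- closed sets which some chart maps into a hyperplane -/
theorem acc_flat (hn : 1 ≤ n) {D : Set X} (θ : OpenPartialHomeomorph X (E n)) (hDθ : D ⊆ θ.source) (hD0 : ∀ x ∈ D, θ x ⟨0, hn⟩ = 0) :
    Acc n D := by
  intro x hx W hW
  by_cases hxD : x ∈ D
  · -- a point of the set
    obtain ⟨R, hR, hRt, hRW, hRn⟩ := exists_chart_ball θ (hDθ hxD) hW
    obtain ⟨c, hc⟩ : ∃ c : E n, c = θ x := ⟨_, rfl⟩
    rw [← hc] at hRt hRW
    have hc0 : c ⟨0, hn⟩ = 0 := by rw [hc]; exact hD0 x hxD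
    have hK0 : ∀ v ∈ ball c R, θ.symm v ∈ D → v ⟨0, hn⟩ = 0 := by
      intro v hv hvK
      have h1 := hD0 _ hvK
      rwa [θ.right_inv (hRt hv)] at h1
    let e : E n := EuclideanSpace.single ⟨0, hn⟩ 1
    have he0 : e ⟨0, hn⟩ = 1 := by simp [e]
    have hlin : ∀ (s t : ℝ) (v w : E n), (s • v + t • w) ⟨0, hn⟩ = s * v ⟨0, hn⟩ + t * w ⟨0, hn⟩ := by
      intro s t v w
      simp
    -- the half balls
    have hhalf : ∀ σ : ℝ, IsPreconnected {v | v ∈ ball c R ∧ 0 < σ * v ⟨0, hn⟩} := by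
      intro σ
      refine Convex.isPreconnected ?_
      intro v hv w hw s t hs ht hst
      refine ⟨convex_ball c R hv.1 hw.1 hs ht hst, ?_⟩
      rw [hlin]
      have h1 := hv.2
      have h2 := hw.2
      rcases hs.lt_or_eq with hs' | hs'
      · have h3 : 0 < s * (σ * v ⟨0, hn⟩) := mul_pos hs' h1
        have h4 : 0 ≤ t * (σ * w ⟨0, hn⟩) := mul_nonneg ht h2.le
        nlinarith
      · have ht1 : t = 1 := by linarith
        rw [← hs', ht1]
        linarith
    have hlim : ∀ v ∈ ball c R, v ⟨0, hn⟩ = 0 →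
        v ∈ closure {v | v ∈ ball c R ∧ 0 < (1 : ℝ) * v ⟨0, hn⟩} := by
      intro v hv hv0
      have h1 : Tendsto (fun t : ℝ => v + t • e) (𝓝[>] 0) (𝓝 v) := by
        have h2 : Continuous (fun t : ℝ => v + t • e) := by fun_prop
        have h3 := h2.tendsto 0
        rw [zero_smul, add_zero] at h3
        exact h3.mono_left nhdsWithin_le_nhds
      refine mem_closure_of_tendsto h1 ?_
      filter_upwards [h1.eventually (isOpen_ball.mem_nhds hv), self_mem_nhdsWithin] with t ht ht0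
      refine ⟨ht, ?_⟩
      have h2 : (v + t • e) ⟨0, hn⟩ = t := by
        have h3 := hlin 1 t v e
        rw [one_smul, hv0, he0] at h3
        rw [h3]
        ring
      rw [h2, one_mul]
      exact ht0
    have hacc := acc_of_chart (D := D) θ hRt hRW (hhalf 1) (fun v hv => ?_) (mem_ball_self hR)
      (hlim c (mem_ball_self hR) hc0)
    · rw [hc, θ.left_inv (hDθ hxD)] at hacc
      exact hacc
    · refine ⟨hv.1, fun hvK => ?_⟩
      have hv0 := hv.2
      rw [hK0 v hv.1 hvK, mul_zero] at hv0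
      exact lt_irrefl _ hv0
  · -- a point off the set
    refine ⟨{x}, isPreconnected_singleton, ?_, subset_closure rfl⟩
    rintro _ rfl
    exact ⟨mem_of_mem_nhds hW, hxD⟩

end

end Pool.Agent.K1H61.NW
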